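import Mathlib
import Pool.Agent.Q41.SP.Stm4
import Pool.Agent.Q144.SU.Gen

/-! Project SP (helper41), job N12 (S_prcP): cycles of prime length. -/

set_option autoImplicit false

namespace Pool.Agent.Q92.SP

open Finset Polynomial Pool.Agent.Q41.SU Pool.Agent.Q41.SP

universe u

variable {L : Type u} [Field L]

/-! ### Homogeneous coordinates -/

/-- the value of the form of degree `d` of `A` -/
noncomputable def hv (d : ℕ) (A : L[X]) (u v : L) : L :=
  ∑ i ∈ range (d + 1), A.coeff i * u ^ i * v ^ (d - i)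

lemma eval_hcm (d : ℕ) (A u v : L[X]) (z : L) :
    (hcm d A u v).eval z = hv d A (u.eval z) (v.eval z) := by
  unfold hcm hv
  simp [eval_finsetSum]

lemma hv_smul (d : ℕ) (A : L[X]) (c u v : L) : hv d A (c * u) (c * v) = c ^ d * hv d A u v := by
  unfold hv
  rw [mul_sum]
  refine sum_congr rfl fun i hi => ?_
  have hi' : i ≤ d := Nat.lt_succ_iff.1 (mem_range.1 hi)
  have h1 : c ^ d = c ^ i * c ^ (d - i) := by
    rw [← pow_add]; congr 1; omega
  rw [mul_pow, mul_pow, h1]
  ring

lemma hv_one {d : ℕ} {A : L[X]} (hA : A.natDegree ≤ d) (x : L) : hv d A x 1 = A.eval x := by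
  unfold hv
  rw [eval_eq_sum_range' (Nat.lt_succ_of_le hA)]
  simp

lemma hv_inf (d : ℕ) (A : L[X]) : hv d A 1 0 = A.coeff d := by
  unfold hv
  rw [Finset.sum_eq_single d]
  · simp
  · intro i hi hne
    have hi' : i ≤ d := Nat.lt_succ_iff.1 (mem_range.1 hi)
    rw [zero_pow (by omega), mul_zero]
  · intro h
    exact absurd (mem_range.2 (Nat.lt_succ_self d)) h

open Classical in
/-- the point of the projective line with the homogeneous coordinates `u`, `v` -/
noncomputable def pt (u v : L) : Option L := if v = 0 then none else some (u / v)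

/-- the map of the projective line -/
noncomputable def gm (d : ℕ) (A B : L[X]) : Option L → Option L
  | none => pt (A.coeff d) (B.coeff d)
  | some x => pt (A.eval x) (B.eval x)

lemma pt_zero (u : L) : pt u 0 = none := by
  unfold pt; simp

lemma pt_ne {v : L} (u : L) (hv : v ≠ 0) : pt u v = some (u / v) := by
  unfold pt; simp [hv]

lemma pt_eq_none {u v : L} : pt u v = none ↔ v = 0 := by
  unfold pt; split_ifs with h <;> simp [h]

lemma pt_smul {c : L} (hc : c ≠ 0) (u v : L) : pt (c * u) (c * v) = pt u v := by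
  by_cases h : v = 0
  · subst h; rw [mul_zero, pt_zero, pt_zero]
  · rw [pt_ne _ h, pt_ne _ (mul_ne_zero hc h), mul_div_mul_left _ _ hc]

lemma gm_pt {d : ℕ} {A B : L[X]} (hA : A.natDegree ≤ d) (hB : B.natDegree ≤ d) {u v : L}
    (h : u ≠ 0 ∨ v ≠ 0) : gm d A B (pt u v) = pt (hv d A u v) (hv d B u v) := by
  by_cases hv0 : v = 0
  · subst hv0
    have hu : u ≠ 0 := h.resolve_right (by simp)
    have h1 : ∀ F : L[X], hv d F u 0 = u ^ d * F.coeff d := by
      intro F
      have := hv_smul d F u 1 0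
      rwa [mul_one, mul_zero, hv_inf] at this
    rw [pt_zero, h1, h1, pt_smul (pow_ne_zero _ hu)]
    rfl
  · have h1 : ∀ F : L[X], F.natDegree ≤ d → hv d F u v = v ^ d * F.eval (u / v) := by
      intro F hF
      have := hv_smul d F v (u / v) 1
      rwa [mul_one, mul_div_cancel₀ _ hv0, hv_one hF] at this
    rw [pt_ne _ hv0, h1 A hA, h1 B hB, pt_smul (pow_ne_zero _ hv0)]
    rfl

section iter

variable {d : ℕ} {A B : L[X]}

lemma B_ne (hd : 1 ≤ d) (hco : IsCoprime A B) (hmax : max A.natDegree B.natDegree = d) :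
    B ≠ 0 := by
  rintro rfl
  rw [isCoprime_zero_right] at hco
  rw [natDegree_zero, natDegree_eq_zero_of_isUnit hco] at hmax
  simp at hmax
  omega

lemma ne_of_coprime {F H : L[X]} (h : IsCoprime F H) (z : L) : F.eval z ≠ 0 ∨ H.eval z ≠ 0 := by
  obtain ⟨a, b, hab⟩ := h
  by_contra hcon
  push Not at hcon
  have h3 := congrArg (fun f : L[X] => f.eval z) hab
  simp [hcon.1, hcon.2] at h3

lemma fin_iter (hd : 1 ≤ d) (hco : IsCoprime A B) (hmax : max A.natDegree B.natDegree = d)
    (z : L) (n : ℕ) : (gm d A B)^[n] (some z) =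
      pt ((itr d A B n).1.eval z) ((itr d A B n).2.eval z) := by
  have hA : A.natDegree ≤ d := hmax ▸ le_max_left _ _
  have hB : B.natDegree ≤ d := hmax ▸ le_max_right _ _
  induction n with
  | zero =>
    show some z = pt ((X : L[X]).eval z) ((1 : L[X]).eval z)
    rw [eval_X, eval_one, pt_ne _ one_ne_zero, div_one]
  | succ n ih =>
    have h1 := Pool.Agent.Q144.SU.itr_props hd hco hmax (B_ne hd hco hmax) n
    rw [Function.iterate_succ_apply', ih, gm_pt hA hB (ne_of_coprime h1.1 z)]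
    show _ = pt ((hcm d A (itr d A B n).1 (itr d A B n).2).eval z)
      ((hcm d B (itr d A B n).1 (itr d A B n).2).eval z)
    rw [eval_hcm, eval_hcm]

lemma inf_iter (hd : 1 ≤ d) (hco : IsCoprime A B) (hmax : max A.natDegree B.natDegree = d)
    (n : ℕ) : (gm d A B)^[n] none =
      pt ((itr d A B n).1.coeff (d ^ n)) ((itr d A B n).2.coeff (d ^ n)) := by
  have hA : A.natDegree ≤ d := hmax ▸ le_max_left _ _
  have hB : B.natDegree ≤ d := hmax ▸ le_max_right _ _
  induction n with
  | zero =>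
    show none = pt ((X : L[X]).coeff (d ^ 0)) ((1 : L[X]).coeff (d ^ 0))
    rw [pow_zero, coeff_X_one, coeff_one, if_neg (by norm_num), pt_zero]
  | succ n ih =>
    have h1 := Pool.Agent.Q144.SU.itr_props hd hco hmax (B_ne hd hco hmax) n
    have h2 := Pool.Agent.Q144.SU.coeff_of_max (Nat.one_le_pow n d hd) h1.2.2
    have h3 : (itr d A B n).1.natDegree ≤ d ^ n := h1.2.2 ▸ le_max_left _ _
    have h4 : (itr d A B n).2.natDegree ≤ d ^ n := h1.2.2 ▸ le_max_right _ _
    rw [Function.iterate_succ_apply', ih, gm_pt hA hB h2]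
    show _ = pt ((hcm d A (itr d A B n).1 (itr d A B n).2).coeff (d ^ (n + 1)))
      ((hcm d B (itr d A B n).1 (itr d A B n).2).coeff (d ^ (n + 1)))
    rw [pow_succ', Pool.Agent.Q144.SU.coeff_hcm h3 h4, Pool.Agent.Q144.SU.coeff_hcm h3 h4]
    rfl

end iter

/-! ### Power series at a fixed point -/

section ps

lemma cc_aeval (F : L[X]) (x : PowerSeries L) :
    PowerSeries.constantCoeff (aeval x F) = F.eval (PowerSeries.constantCoeff x) := by
  rw [aeval_def, hom_eval₂]
  have h1 : (PowerSeries.constantCoeff (R := L)).comp (algebraMap L (PowerSeries L)) =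
      RingHom.id L := by
    ext a
    exact PowerSeries.constantCoeff_C a
  rw [h1]
  rfl

lemma diff_poly (F : L[X]) {x y : PowerSeries L} {w : L}
    (hx : PowerSeries.constantCoeff x = w) (hy : PowerSeries.constantCoeff y = w) :
    ∃ g : PowerSeries L, aeval x F = aeval y F + (x - y) * g ∧
      PowerSeries.constantCoeff g = F.derivative.eval w := by
  obtain ⟨k, hk⟩ := (F.map (algebraMap L (PowerSeries L))).binomExpansion y (x - y)
  refine ⟨aeval y F.derivative + k * (x - y), ?_, ?_⟩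
  · rw [add_sub_cancel, derivative_map, eval_map, eval_map, eval_map] at hk
    rw [aeval_def, aeval_def, aeval_def, hk]
    ring
  · rw [map_add, map_mul, map_sub, hx, hy, sub_self, mul_zero, add_zero, cc_aeval, hy]

lemma diff_rat {A B : L[X]} {x y : PowerSeries L} {w : L}
    (hx : PowerSeries.constantCoeff x = w) (hy : PowerSeries.constantCoeff y = w)
    (hB : B.eval w ≠ 0) :
    ∃ v : PowerSeries L, aeval x A * (aeval x B)⁻¹ - aeval y A * (aeval y B)⁻¹ = (x - y) * v ∧
      PowerSeries.constantCoeff v = (wr A B).eval w / B.eval w ^ 2 := by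
  obtain ⟨gA, hA1, hA2⟩ := diff_poly A hx hy
  obtain ⟨gB, hB1, hB2⟩ := diff_poly B hx hy
  have hbx : PowerSeries.constantCoeff (aeval x B) ≠ 0 := by rw [cc_aeval, hx]; exact hB
  have hby : PowerSeries.constantCoeff (aeval y B) ≠ 0 := by rw [cc_aeval, hy]; exact hB
  have e1 := PowerSeries.mul_inv_cancel (aeval x B) hbx
  have e2 := PowerSeries.mul_inv_cancel (aeval y B) hby
  refine ⟨(gA * aeval y B - aeval y A * gB) * ((aeval x B)⁻¹ * (aeval y B)⁻¹), ?_, ?_⟩
  · set bx := aeval x B with hbx'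
    set byy := aeval y B with hby'
    have h3 : aeval x A * byy - aeval y A * bx = (x - y) * (gA * byy - aeval y A * gB) := by
      rw [hA1, hB1]; ring
    calc aeval x A * bx⁻¹ - aeval y A * byy⁻¹
        = aeval x A * bx⁻¹ * (byy * byy⁻¹) - aeval y A * byy⁻¹ * (bx * bx⁻¹) := by
          rw [e1, e2, mul_one, mul_one]
      _ = (aeval x A * byy - aeval y A * bx) * (bx⁻¹ * byy⁻¹) := by ring
      _ = _ := by rw [h3]; ring
  · rw [map_mul, map_mul, map_sub, map_mul, map_mul, PowerSeries.constantCoeff_inv,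
      PowerSeries.constantCoeff_inv, cc_aeval, cc_aeval, cc_aeval, hx, hy, hA2, hB2]
    unfold wr
    rw [eval_sub, eval_mul, eval_mul]
    field_simp

/-- the orbit of `w + X` -/
noncomputable def xs (A B : L[X]) (w : L) : ℕ → PowerSeries L
  | 0 => PowerSeries.C w + PowerSeries.X
  | n + 1 => aeval (xs A B w n) A * (aeval (xs A B w n) B)⁻¹

variable {d : ℕ} {A B : L[X]} {w : L}

lemma xs_cc (hB : B.eval w ≠ 0) (hw : A.eval w = w * B.eval w) (n : ℕ) :
    PowerSeries.constantCoeff (xs A B w n) = w := by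
  induction n with
  | zero =>
    show PowerSeries.constantCoeff (PowerSeries.C w + PowerSeries.X) = w
    rw [map_add, PowerSeries.constantCoeff_C, PowerSeries.constantCoeff_X, add_zero]
  | succ n ih =>
    show PowerSeries.constantCoeff (aeval (xs A B w n) A * (aeval (xs A B w n) B)⁻¹) = w
    rw [map_mul, PowerSeries.constantCoeff_inv, cc_aeval, cc_aeval, ih, hw]
    field_simp

lemma xs_diff (hB : B.eval w ≠ 0) (hw : A.eval w = w * B.eval w) (n : ℕ) :
    ∃ V : PowerSeries L, xs A B w (n + 1) - xs A B w n = (xs A B w 1 - xs A B w 0) * V ∧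
      PowerSeries.constantCoeff V = ((wr A B).eval w / B.eval w ^ 2) ^ n := by
  induction n with
  | zero => exact ⟨1, by rw [mul_one], by simp⟩
  | succ n ih =>
    obtain ⟨V, h1, h2⟩ := ih
    obtain ⟨v, h3, h4⟩ := diff_rat (A := A) (B := B) (xs_cc hB hw (n + 1)) (xs_cc hB hw n) hB
    refine ⟨V * v, ?_, ?_⟩
    · show aeval (xs A B w (n + 1)) A * (aeval (xs A B w (n + 1)) B)⁻¹ -
        aeval (xs A B w n) A * (aeval (xs A B w n) B)⁻¹ = _
      rw [h3, h1]
      ring
    · rw [map_mul, h2, h4, pow_succ ((wr A B).eval w / B.eval w ^ 2) n]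

lemma xs_sum (hB : B.eval w ≠ 0) (hw : A.eval w = w * B.eval w) (n : ℕ) :
    ∃ U : PowerSeries L, xs A B w n - xs A B w 0 = (xs A B w 1 - xs A B w 0) * U ∧
      PowerSeries.constantCoeff U = ∑ i ∈ range n, ((wr A B).eval w / B.eval w ^ 2) ^ i := by
  induction n with
  | zero => exact ⟨0, by rw [mul_zero, sub_self], by simp⟩
  | succ n ih =>
    obtain ⟨U, h1, h2⟩ := ih
    obtain ⟨V, h3, h4⟩ := xs_diff hB hw n
    refine ⟨U + V, ?_, ?_⟩
    · rw [mul_add, ← h1, ← h3]; ring
    · rw [map_add, h2, h4, sum_range_succ]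

lemma aeval_hcm {R : Type*} [CommRing R] [Algebra L R] {F u v : L[X]} (hF : F.natDegree ≤ d)
    (x0 y : R) (h : aeval x0 u = y * aeval x0 v) :
    aeval x0 (hcm d F u v) = aeval x0 v ^ d * aeval y F := by
  unfold hcm
  rw [map_sum, aeval_eq_sum_range' (Nat.lt_succ_of_le hF), mul_sum]
  refine sum_congr rfl fun i hi => ?_
  have hi' : i ≤ d := Nat.lt_succ_iff.1 (mem_range.1 hi)
  have h1 : aeval x0 v ^ d = aeval x0 v ^ i * aeval x0 v ^ (d - i) := by
    rw [← pow_add]; congr 1; omega
  rw [map_mul, map_mul, aeval_C, map_pow, map_pow, h, mul_pow, h1, Algebra.smul_def]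
  ring

lemma xs_itr (hA : A.natDegree ≤ d) (hBd : B.natDegree ≤ d) (hB : B.eval w ≠ 0)
    (hw : A.eval w = w * B.eval w) (n : ℕ) :
    aeval (xs A B w 0) (itr d A B n).1 =
      xs A B w n * aeval (xs A B w 0) (itr d A B n).2 ∧
    PowerSeries.constantCoeff (aeval (xs A B w 0) (itr d A B n).2) ≠ 0 := by
  induction n with
  | zero =>
    refine ⟨?_, ?_⟩
    · show aeval (xs A B w 0) (X : L[X]) = xs A B w 0 * aeval (xs A B w 0) (1 : L[X])
      rw [aeval_X, map_one, mul_one]
    · show PowerSeries.constantCoeff (aeval (xs A B w 0) (1 : L[X])) ≠ 0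
      rw [map_one, map_one]
      exact one_ne_zero
  | succ n ih =>
    obtain ⟨h1, h2⟩ := ih
    have hcc := xs_cc hB hw n
    have hb : PowerSeries.constantCoeff (aeval (xs A B w n) B) ≠ 0 := by
      rw [cc_aeval, hcc]; exact hB
    have e1 : aeval (xs A B w 0) (itr d A B (n + 1)).1 =
        aeval (xs A B w 0) (itr d A B n).2 ^ d * aeval (xs A B w n) A :=
      aeval_hcm hA _ _ h1
    have e2 : aeval (xs A B w 0) (itr d A B (n + 1)).2 =
        aeval (xs A B w 0) (itr d A B n).2 ^ d * aeval (xs A B w n) B :=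
      aeval_hcm hBd _ _ h1
    refine ⟨?_, ?_⟩
    · rw [e1, e2]
      show _ = aeval (xs A B w n) A * (aeval (xs A B w n) B)⁻¹ * _
      have e3 := PowerSeries.mul_inv_cancel (aeval (xs A B w n) B) hb
      calc aeval (xs A B w 0) (itr d A B n).2 ^ d * aeval (xs A B w n) A
          = aeval (xs A B w 0) (itr d A B n).2 ^ d * aeval (xs A B w n) A *
            (aeval (xs A B w n) B * (aeval (xs A B w n) B)⁻¹) := by rw [e3, mul_one]
        _ = _ := by ring
    · rw [e2, map_mul, map_pow]
      exact mul_ne_zero (pow_ne_zero _ h2) hb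

/-- the fixed point polynomial of the `n`-th iterate -/
noncomputable def Ph (d : ℕ) (A B : L[X]) (n : ℕ) : L[X] :=
  (itr d A B n).1 - X * (itr d A B n).2

lemma Ph_ps (hA : A.natDegree ≤ d) (hBd : B.natDegree ≤ d) (hB : B.eval w ≠ 0)
    (hw : A.eval w = w * B.eval w) {n : ℕ}
    (hn : ∑ i ∈ range n, ((wr A B).eval w / B.eval w ^ 2) ^ i ≠ 0) (m : ℕ) :
    PowerSeries.X ^ m ∣ aeval (xs A B w 0) (Ph d A B n) ↔
      PowerSeries.X ^ m ∣ xs A B w 1 - xs A B w 0 := by
  obtain ⟨h1, h2⟩ := xs_itr (d := d) hA hBd hB hw n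
  obtain ⟨U, h3, h4⟩ := xs_sum hB hw n
  have e1 : aeval (xs A B w 0) (Ph d A B n) =
      (xs A B w 1 - xs A B w 0) * (U * aeval (xs A B w 0) (itr d A B n).2) := by
    unfold Ph
    rw [map_sub, map_mul, aeval_X, h1, ← sub_mul, h3, mul_assoc]
  have hu : IsUnit (U * aeval (xs A B w 0) (itr d A B n).2) := by
    rw [PowerSeries.isUnit_iff_constantCoeff, map_mul, h4]
    exact (mul_ne_zero hn h2).isUnit
  rw [e1]
  exact hu.dvd_mul_right

lemma mult_iff {F : L[X]} (hF : F ≠ 0) (w : L) (m : ℕ) :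
    m ≤ F.rootMultiplicity w ↔
      PowerSeries.X ^ m ∣ aeval (PowerSeries.C w + PowerSeries.X : PowerSeries L) F := by
  have e1 : aeval (PowerSeries.C w + PowerSeries.X : PowerSeries L) F =
      ((F.comp (X + C w) : L[X]) : PowerSeries L) := by
    have h1 : (PowerSeries.C w + PowerSeries.X : PowerSeries L) =
        Polynomial.coeToPowerSeries.algHom L (X + C w) := by
      simp [Polynomial.coeToPowerSeries.algHom_apply, add_comm]
    rw [h1, aeval_algHom_apply]
    have h2 : aeval (X + C w : L[X]) F = F.comp (X + C w) := rfl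
    rw [h2]
    simp [Polynomial.coeToPowerSeries.algHom_apply]
  have hG : F.comp (X + C w) ≠ 0 := by
    intro h0
    apply hF
    have := congrArg (fun f : L[X] => f.comp (X - C w)) h0
    simpa [comp_assoc] using this
  rw [e1, rootMultiplicity_eq_rootMultiplicity, le_rootMultiplicity_iff hG, C_0, sub_zero,
    Polynomial.X_pow_dvd_iff, PowerSeries.X_pow_dvd_iff]
  simp only [Polynomial.coeff_coe]

end ps

/-! ### Counting -/

section count

variable {d : ℕ} {A B : L[X]}

lemma itr_one (hA : A.natDegree ≤ d) (hB : B.natDegree ≤ d) :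
    (itr d A B 1).1 = A ∧ (itr d A B 1).2 = B := by
  have key : ∀ F : L[X], F.natDegree ≤ d → hcm d F X 1 = F := by
    intro F hF
    unfold hcm
    conv_rhs => rw [F.as_sum_range' (d + 1) (Nat.lt_succ_of_le hF)]
    refine sum_congr rfl fun i _ => ?_
    rw [one_pow, mul_one, C_mul_X_pow_eq_monomial]
  exact ⟨key A hA, key B hB⟩

lemma Ph_coeff (hd : 1 ≤ d) (hco : IsCoprime A B) (hmax : max A.natDegree B.natDegree = d)
    (n : ℕ) : (Ph d A B n).coeff (d ^ n + 1) = -(itr d A B n).2.coeff (d ^ n) ∧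
      (Ph d A B n).natDegree ≤ d ^ n + 1 := by
  have h1 := Pool.Agent.Q144.SU.itr_props hd hco hmax (B_ne hd hco hmax) n
  have h3 : (itr d A B n).1.natDegree ≤ d ^ n := h1.2.2 ▸ le_max_left _ _
  have h4 : (itr d A B n).2.natDegree ≤ d ^ n := h1.2.2 ▸ le_max_right _ _
  refine ⟨?_, ?_⟩
  · unfold Ph
    rw [coeff_sub, coeff_X_mul, coeff_eq_zero_of_natDegree_lt (by omega), zero_sub]
  · unfold Ph
    refine (natDegree_sub_le _ _).trans (max_le (by omega) ?_)
    refine natDegree_mul_le.trans ?_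
    rw [natDegree_X]
    omega

/-- If `∞` is not fixed by the `n`-th iterate then some fixed point of the `n`-th iterate is not a
fixed point of the map. -/
lemma exists_root [IsAlgClosed L] (hd : 2 ≤ d) (hco : IsCoprime A B) (hA : A.natDegree ≤ d)
    (hB : B.natDegree = d) {n : ℕ} (hn : 2 ≤ n) (hinf : (itr d A B n).2.coeff (d ^ n) ≠ 0)
    (hmul : ∀ w, A.eval w = w * B.eval w →
      ∑ i ∈ range n, ((wr A B).eval w / B.eval w ^ 2) ^ i ≠ 0) :
    ∃ z : L, (Ph d A B n).eval z = 0 ∧ A.eval z ≠ z * B.eval z := by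
  have hmax : max A.natDegree B.natDegree = d := by rw [hB]; exact max_eq_right hA
  by_contra hcon
  push Not at hcon
  obtain ⟨hc1, hc2⟩ := Ph_coeff (by omega : 1 ≤ d) hco hmax n
  have hFn : Ph d A B n ≠ 0 := by
    intro h0
    rw [h0, coeff_zero] at hc1
    exact hinf (neg_eq_zero.1 hc1.symm)
  have hdeg : (Ph d A B n).natDegree = d ^ n + 1 := by
    refine le_antisymm hc2 (le_natDegree_of_ne_zero ?_)
    rw [hc1]
    exact neg_ne_zero.2 hinf
  have hi1 := itr_one (A := A) (B := B) hA hB.le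
  have hF1e : Ph d A B 1 = A - X * B := by
    unfold Ph
    rw [hi1.1, hi1.2]
  obtain ⟨hc3, hc4⟩ := Ph_coeff (by omega : 1 ≤ d) hco hmax 1
  have hF1 : Ph d A B 1 ≠ 0 := by
    intro h0
    rw [h0, coeff_zero, hi1.2, pow_one] at hc3
    have h1 : B.leadingCoeff = 0 := by
      rw [leadingCoeff, hB]
      exact neg_eq_zero.1 hc3.symm
    rw [leadingCoeff_eq_zero] at h1
    rw [h1, natDegree_zero] at hB
    omega
  have hle : (Ph d A B n).roots ≤ (Ph d A B 1).roots := by
    classical
    rw [Multiset.le_iff_count]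
    intro w
    rw [count_roots, count_roots]
    by_cases hr : (Ph d A B n).eval w = 0
    · have hw := hcon w hr
      have hBw : B.eval w ≠ 0 := by
        intro h0
        rcases ne_of_coprime hco w with h | h
        · apply h; rw [hw, h0, mul_zero]
        · exact h h0
      rw [mult_iff hF1]
      have h1 := (mult_iff hFn w ((Ph d A B n).rootMultiplicity w)).1 le_rfl
      have h2 := (Ph_ps (w := w) hA hB.le hBw hw (hmul w hw)
        ((Ph d A B n).rootMultiplicity w)).1 h1
      exact (Ph_ps (w := w) hA hB.le hBw hw (n := 1) (by simp) _).2 h2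
    · rw [rootMultiplicity_eq_zero (by rwa [IsRoot.def])]
      exact Nat.zero_le _
  have hcard := Multiset.card_le_card hle
  rw [← (IsAlgClosed.splits (Ph d A B n)).natDegree_eq_card_roots, hdeg] at hcard
  have h5 := (card_roots' (Ph d A B 1)).trans hc4
  rw [pow_one] at h5
  have h6 : d ^ 2 ≤ d ^ n := Nat.pow_le_pow_right (by omega) hn
  nlinarith

/-- The orbit of a point of period `n` of a map such that `∞` has not the period `n`. -/
lemma orbit (hd : 1 ≤ d) (hco : IsCoprime A B) (hmax : max A.natDegree B.natDegree = d)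
    {n : ℕ} (hinf : ¬ Function.IsPeriodicPt (gm d A B) n none) {z : L}
    (hz : (Ph d A B n).eval z = 0) (hz1 : A.eval z ≠ z * B.eval z) :
    ∃ y : ℕ → L, (∀ i, B.eval (y i) ≠ 0 ∧ y (i + 1) = A.eval (y i) / B.eval (y i)) ∧
      y n = y 0 ∧ y 1 ≠ y 0 ∧ ∀ i, (gm d A B)^[i] (some (y 0)) = some (y i) := by
  have h1 := Pool.Agent.Q144.SU.itr_props hd hco hmax (B_ne hd hco hmax) n
  have hper : Function.IsPeriodicPt (gm d A B) n (some z) := by
    show (gm d A B)^[n] (some z) = some z
    rw [fin_iter hd hco hmax]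
    have h2 : (itr d A B n).1.eval z = z * (itr d A B n).2.eval z := by
      unfold Ph at hz
      rw [eval_sub, eval_mul, eval_X, sub_eq_zero] at hz
      exact hz
    have h3 : (itr d A B n).2.eval z ≠ 0 := by
      intro h0
      rcases ne_of_coprime h1.1 z with h | h
      · apply h; rw [h2, h0, mul_zero]
      · exact h h0
    rw [pt_ne _ h3, h2, mul_div_cancel_right₀ _ h3]
  have hne : ∀ i, (gm d A B)^[i] (some z) ≠ none := by
    intro i h0
    apply hinf
    have := hper.apply_iterate i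
    rwa [h0] at this
  choose y hy using fun i => Option.ne_none_iff_exists'.1 (hne i)
  have hy0 : y 0 = z := by
    have := hy 0
    simpa using this.symm
  have hstep : ∀ i, B.eval (y i) ≠ 0 ∧ y (i + 1) = A.eval (y i) / B.eval (y i) := by
    intro i
    have h2 := hy (i + 1)
    rw [Function.iterate_succ_apply', hy i] at h2
    have h3 : pt (A.eval (y i)) (B.eval (y i)) = some (y (i + 1)) := h2
    have h4 : B.eval (y i) ≠ 0 := by
      intro h0
      rw [h0, pt_zero] at h3
      exact absurd h3 (by simp)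
    rw [pt_ne _ h4] at h3
    exact ⟨h4, (Option.some.inj h3).symm⟩
  refine ⟨y, hstep, ?_, ?_, ?_⟩
  · have h2 := hy n
    rw [hper.eq, ← hy0] at h2
    exact (Option.some.inj h2).symm
  · intro h2
    apply hz1
    have h3 := hstep 0
    rw [hy0] at h3
    have h4 : y 1 = A.eval z / B.eval z := h3.2
    rw [h2, hy0, eq_div_iff h3.1] at h4
    exact h4.symm
  · intro i
    rw [hy0]
    exact hy i

/-- A set of natural numbers with at most one element. -/
lemma small_set (p : ℕ → Prop) (h : ∀ a b, p a → p b → a = b) :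
    ∃ s : Finset ℕ, s.card ≤ 1 ∧ ∀ n, p n → n ∈ s := by
  by_cases hp : ∃ a, p a
  · obtain ⟨a, ha⟩ := hp
    exact ⟨{a}, by simp, fun n hn => by rw [mem_singleton]; exact h n a hn ha⟩
  · push Not at hp
    exact ⟨∅, by simp, fun n hn => absurd hn (hp n)⟩

/-- Prime periods of a point which is not fixed. -/
lemma prime_period {α : Type*} (f : α → α) (x : α) (hx : f x ≠ x) (a b : ℕ) (ha : a.Prime)
    (hb : b.Prime) (h1 : Function.IsPeriodicPt f a x) (h2 : Function.IsPeriodicPt f b x) :
    a = b := by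
  by_contra hab
  have h3 := h1.gcd h2
  rw [(Nat.coprime_primes ha hb).2 hab] at h3
  exact hx h3

lemma prime_root {c : L} (hc : c ≠ 1) (a b : ℕ) (ha : a.Prime) (hb : b.Prime) (h1 : c ^ a = 1)
    (h2 : c ^ b = 1) : a = b := by
  by_contra hab
  apply hc
  have h3 := orderOf_dvd_of_pow_eq_one h1
  have h4 := orderOf_dvd_of_pow_eq_one h2
  have h5 : orderOf c ∣ 1 := by
    rw [← (Nat.coprime_primes ha hb).2 hab]
    exact Nat.dvd_gcd h3 h4
  exact orderOf_eq_one_iff.1 (Nat.dvd_one.1 h5)

/-- The theorem for maps with a finite value at `∞`, and cycles which avoid `0`. -/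
lemma prc_fin [IsAlgClosed L] (l : ℕ) [CharP L l] (hd : 2 ≤ d) (hco : IsCoprime A B)
    (hA : A.natDegree ≤ d) (hB : B.natDegree = d) :
    ∃ bad : Finset ℕ, bad.card ≤ d + 3 ∧ ∀ ℓ : ℕ, ℓ.Prime → ℓ ≠ l → l.Prime → ℓ ∉ bad →
      ∃ y : ℕ → L, (∀ i, B.eval (y i) ≠ 0 ∧ y (i + 1) = A.eval (y i) / B.eval (y i)) ∧
        y ℓ = y 0 ∧ y 1 ≠ y 0 ∧ ∀ i, y i ≠ 0 := by
  classical
  have hmax : max A.natDegree B.natDegree = d := by rw [hB]; exact max_eq_right hA
  have hd1 : 1 ≤ d := by omega
  have hBd : B.coeff d ≠ 0 := by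
    intro h0
    have h1 : B.leadingCoeff = 0 := by rw [leadingCoeff, hB, h0]
    rw [leadingCoeff_eq_zero] at h1
    rw [h1, natDegree_zero] at hB
    omega
  have hnone : gm d A B none ≠ none := by
    show pt (A.coeff d) (B.coeff d) ≠ none
    rw [Ne, pt_eq_none]
    exact hBd
  obtain ⟨s1, hs1, hs1'⟩ := small_set
    (fun a => a.Prime ∧ Function.IsPeriodicPt (gm d A B) a none)
    (fun a b ha hb => prime_period _ _ hnone a b ha.1 hb.1 ha.2 hb.2)
  obtain ⟨s2, hs2, hs2'⟩ := small_set
    (fun a => a.Prime ∧ gm d A B (some 0) ≠ some 0 ∧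
      Function.IsPeriodicPt (gm d A B) a (some 0))
    (fun a b ha hb => prime_period _ _ ha.2.1 a b ha.1 hb.1 ha.2.2 hb.2.2)
  choose s3 hs3 hs3' using fun w : L => small_set
    (fun a => a.Prime ∧ (wr A B).eval w / B.eval w ^ 2 ≠ 1 ∧
      ((wr A B).eval w / B.eval w ^ 2) ^ a = 1)
    (fun a b ha hb => prime_root ha.2.1 a b ha.1 hb.1 ha.2.2 hb.2.2)
  have hi1 := itr_one (A := A) (B := B) hA hB.le
  have hF1e : Ph d A B 1 = A - X * B := by
    unfold Ph
    rw [hi1.1, hi1.2]
  obtain ⟨hc3, hc4⟩ := Ph_coeff hd1 hco hmax 1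
  have hF1 : Ph d A B 1 ≠ 0 := by
    intro h0
    rw [h0, coeff_zero, hi1.2, pow_one] at hc3
    exact hBd (neg_eq_zero.1 hc3.symm)
  refine ⟨s1 ∪ s2 ∪ (Ph d A B 1).roots.toFinset.biUnion s3, ?_, ?_⟩
  · have h1 : ((Ph d A B 1).roots.toFinset.biUnion s3).card ≤ d + 1 := by
      refine card_biUnion_le.trans ?_
      refine (Finset.sum_le_sum fun w _ => hs3 w).trans ?_
      rw [sum_const, smul_eq_mul, mul_one]
      refine (Multiset.toFinset_card_le _).trans ?_
      refine (card_roots' _).trans ?_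
      rwa [pow_one] at hc4
    have h2 := card_union_le (s1 ∪ s2) ((Ph d A B 1).roots.toFinset.biUnion s3)
    have h3 := card_union_le s1 s2
    omega
  · intro ℓ hℓ hℓl hl hbad
    rw [mem_union, mem_union, not_or, not_or] at hbad
    obtain ⟨⟨hb1, hb2⟩, hb3⟩ := hbad
    have hinf : ¬ Function.IsPeriodicPt (gm d A B) ℓ none := fun h => hb1 (hs1' ℓ ⟨hℓ, h⟩)
    have hinf' : (itr d A B ℓ).2.coeff (d ^ ℓ) ≠ 0 := by
      intro h0
      apply hinf
      show (gm d A B)^[ℓ] none = none
      rw [inf_iter hd1 hco hmax, h0, pt_zero]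
    have hmul : ∀ w, A.eval w = w * B.eval w →
        ∑ i ∈ range ℓ, ((wr A B).eval w / B.eval w ^ 2) ^ i ≠ 0 := by
      intro w hw h0
      by_cases hlam : (wr A B).eval w / B.eval w ^ 2 = 1
      · rw [hlam] at h0
        simp only [one_pow, sum_const, card_range, nsmul_eq_mul, mul_one] at h0
        rw [CharP.cast_eq_zero_iff L l] at h0
        exact hℓl ((Nat.prime_dvd_prime_iff_eq hl hℓ).1 h0).symm
      · apply hb3
        rw [mem_biUnion]
        refine ⟨w, ?_, hs3' w ℓ ⟨hℓ, hlam, ?_⟩⟩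
        · rw [Multiset.mem_toFinset, mem_roots hF1, IsRoot.def, hF1e, eval_sub, eval_mul, eval_X,
            hw, sub_self]
        · have h1 := geom_sum_mul ((wr A B).eval w / B.eval w ^ 2) ℓ
          rw [h0, zero_mul] at h1
          exact (sub_eq_zero.1 h1.symm)
    obtain ⟨z, hz1, hz2⟩ := exists_root hd hco hA hB hℓ.two_le hinf' hmul
    obtain ⟨y, hy1, hy2, hy3, hy4⟩ := orbit hd1 hco hmax hinf hz1 hz2
    refine ⟨y, hy1, hy2, hy3, ?_⟩
    intro i hi
    have hper : Function.IsPeriodicPt (gm d A B) ℓ (some (y 0)) := by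
      show (gm d A B)^[ℓ] (some (y 0)) = some (y 0)
      rw [hy4, hy2]
    have hper0 : Function.IsPeriodicPt (gm d A B) ℓ (some 0) := by
      have := hper.apply_iterate i
      rwa [hy4, hi] at this
    have hfix : gm d A B (some 0) = some 0 := by
      by_contra h0
      exact hb2 (hs2' ℓ ⟨hℓ, h0, hper0⟩)
    have hfix' : ∀ j, (gm d A B)^[j] (some (0 : L)) = some 0 := fun j =>
      Function.iterate_fixed hfix j
    -- all later points are zero
    have hlate : ∀ j, y (i + j) = 0 := by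
      intro j
      have h1 := hy4 (i + j)
      rw [add_comm, Function.iterate_add_apply, hy4, hi, hfix' j, add_comm] at h1
      exact (Option.some.inj h1).symm
    have hper1 : ∀ k, y (ℓ * k) = y 0 := by
      intro k
      have h1 := hy4 (ℓ * k)
      have h2 := (hper.mul_const k).eq
      rw [h1] at h2
      exact Option.some.inj h2
    have h0 : y 0 = 0 := by
      have h1 := hper1 i
      have h2 : ℓ * i = i + (ℓ * i - i) := by
        have := Nat.le_mul_of_pos_left i hℓ.pos
        omega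
      rw [h2, hlate] at h1
      exact h1.symm
    apply hy3
    have h1 := hy1 0
    have h2 : gm d A B (some (y 0)) = some (y 1) := hy4 1
    rw [h0, hfix] at h2
    rw [h0]
    exact (Option.some.inj h2).symm

end count

/-- A map of degree at least two is not the identity. -/
lemma exists_not_fixed [IsAlgClosed L] {D₀ : ℕ} {P Q : L[X]} (h : RM D₀ P Q) (hD : 2 ≤ D₀) :
    ∃ c : L, P.eval c - c * Q.eval c ≠ 0 := by
  have : Infinite L := IsAlgClosed.instInfinite
  by_contra hcon
  push Not at hcon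
  have h1 : P - X * Q = 0 := by
    apply Polynomial.funext
    intro c
    rw [eval_sub, eval_mul, eval_X, eval_zero, hcon c]
  have h2 : P = X * Q := sub_eq_zero.1 h1
  have hu : IsUnit Q := by
    obtain ⟨a, b, hab⟩ := h.co
    apply IsUnit.of_mul_eq_one (a * X + b)
    rw [← hab, h2]
    ring
  have h3 : Q.natDegree = 0 := natDegree_eq_zero_of_isUnit hu
  have h4 : P.natDegree ≤ 1 := by
    rw [h2]
    refine natDegree_mul_le.trans ?_
    rw [natDegree_X, h3]
  have h5 := h.deg
  rw [h3] at h5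
  omega

theorem prcP : S_prcP.{u} := by
  intro l D₀ L _ _ hl _ P Q hRM hD
  obtain ⟨c, hc⟩ := exists_not_fixed hRM hD
  have hPd : P.natDegree ≤ D₀ := hRM.deg ▸ le_max_left _ _
  have hQd : Q.natDegree ≤ D₀ := hRM.deg ▸ le_max_right _ _
  set R : L[X] := P - C c * Q with hR
  have hRd : R.natDegree ≤ D₀ :=
    (natDegree_sub_le _ _).trans (max_le hPd ((natDegree_C_mul_le _ _).trans hQd))
  have hco' : IsCoprime Q R := by
    obtain ⟨a, b, hab⟩ := hRM.co
    refine ⟨b + C c * a, a, ?_⟩
    rw [← hab, hR]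
    ring
  have htop : Q.coeff D₀ ≠ 0 ∨ R.coeff D₀ ≠ 0 := by
    rcases Pool.Agent.Q144.SU.coeff_of_max (by omega : 1 ≤ D₀) hRM.deg with h | h
    · by_cases hq : Q.coeff D₀ = 0
      · right
        rw [hR, coeff_sub, coeff_C_mul, hq, mul_zero, sub_zero]
        exact h
      · exact Or.inl hq
    · exact Or.inl h
  set U : L[X] := 1 + C c * X with hU
  have hUX : IsCoprime U (X : L[X]) := ⟨1, -C c, by rw [hU]; ring⟩
  have hUd : U.natDegree ≤ 1 := by
    refine (natDegree_add_le _ _).trans (max_le (by rw [natDegree_one]; omega) ?_)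
    exact (natDegree_C_mul_le _ _).trans natDegree_X_le
  have hUe : ∀ w, U.eval w = 1 + c * w := by
    intro w
    rw [hU, eval_add, eval_one, eval_mul, eval_C, eval_X]
  have hco : IsCoprime (hcm D₀ Q U X) (hcm D₀ R U X) :=
    Pool.Agent.Q144.SU.coprime_hcm hQd hRd htop hco' hUX
  have hA : (hcm D₀ Q U X).natDegree ≤ D₀ := by
    have := Pool.Agent.Q24.SU.hcm_deg (H := D₀) (g := Q) hUd (natDegree_X_le (R := L))
    rwa [mul_one] at this
  have hB : (hcm D₀ R U X).natDegree = D₀ := by
    refine le_antisymm ?_ ?_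
    · have := Pool.Agent.Q24.SU.hcm_deg (H := D₀) (g := R) hUd (natDegree_X_le (R := L))
      rwa [mul_one] at this
    · refine le_natDegree_of_ne_zero ?_
      have h1 := Pool.Agent.Q144.SU.coeff_hcm (H := D₀) (g := R) hUd (natDegree_X_le (R := L))
      rw [mul_one] at h1
      have h2 : U.coeff 1 = c := by
        rw [hU, coeff_add, coeff_one, if_neg (by norm_num), coeff_C_mul, coeff_X_one, mul_one,
          zero_add]
      rw [h1, h2, coeff_X_one]
      have h3 : ∑ i ∈ range (D₀ + 1), R.coeff i * c ^ i * 1 ^ (D₀ - i) = R.eval c := by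
        rw [eval_eq_sum_range' (Nat.lt_succ_of_le hRd)]
        simp
      rw [h3, hR, eval_sub, eval_mul, eval_C]
      exact hc
  obtain ⟨bad, hbad, hmain⟩ := prc_fin l hD hco hA hB
  refine ⟨bad, hbad, fun ℓ hℓ hℓl hℓb => ?_⟩
  obtain ⟨w, hw1, hw2, hw3, hw4⟩ := hmain ℓ hℓ hℓl hl.out hℓb
  have hev : ∀ F : L[X], F.natDegree ≤ D₀ → ∀ i, (hcm D₀ F U X).eval (w i) =
      w i ^ D₀ * F.eval ((1 + c * w i) / w i) := by
    intro F hF i
    have h1 := Pool.Agent.Q24.SU.hcm_eval (H := D₀) (g := F) (P := U) (Q := X) hF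
      (x := w i) (by rw [eval_X]; exact hw4 i)
    rw [eval_X, hUe] at h1
    exact h1
  refine ⟨fun i => (1 + c * w i) / w i, fun i => ?_, ?_, ?_⟩
  · obtain ⟨h1, h2⟩ := hw1 i
    rw [hev R hRd] at h1 h2
    rw [hev Q hQd] at h2
    set y := (1 + c * w i) / w i with hy
    have h3 : w i ^ D₀ ≠ 0 := pow_ne_zero _ (hw4 i)
    rw [mul_div_mul_left _ _ h3] at h2
    have h4 : R.eval y ≠ 0 := right_ne_zero_of_mul h1
    have h5 : Q.eval y ≠ 0 := by
      intro h0
      apply hw4 (i + 1)
      rw [h2, h0, zero_div]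
    refine ⟨h5, ?_⟩
    show (1 + c * w (i + 1)) / w (i + 1) = P.eval y / Q.eval y
    have h6 : P.eval y = R.eval y + c * Q.eval y := by
      rw [hR, eval_sub, eval_mul, eval_C]; ring
    rw [h2, h6]
    field_simp
  · show (1 + c * w ℓ) / w ℓ = (1 + c * w 0) / w 0
    rw [hw2]
  · show (1 + c * w 1) / w 1 ≠ (1 + c * w 0) / w 0
    intro h
    apply hw3
    rw [div_eq_div_iff (hw4 1) (hw4 0)] at h
    linear_combination -h

end Pool.Agent.Q92.SP
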