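import Mathlib
import Pool.Agent.Q41.SP.Stm4
import Pool.Agent.Q92.SP.Prc

/-! Project SP (helper41), job N13 (S_cycP): good cycles with an infinite unramified backward
orbit. -/

set_option autoImplicit false

namespace Pool.Agent.Q92.SP

open Finset Polynomial Pool.Agent.Q41.SU Pool.Agent.Q41.SP

universe u

section

variable {L : Type u} [Field L] {d : ℕ} {A B : L[X]}

lemma gm_some {x : L} (hx : B.eval x ≠ 0) : gm d A B (some x) = some (A.eval x / B.eval x) :=
  pt_ne _ hx

/-- a point which is a root of `A - y B` is mapped to `y` -/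
lemma gm_root (hco : IsCoprime A B) {x y : L} (h : (A - C y * B).eval x = 0) :
    gm d A B (some x) = some y := by
  rw [eval_sub, eval_mul, eval_C, sub_eq_zero] at h
  have h1 : B.eval x ≠ 0 := by
    intro h0
    rcases ne_of_coprime hco x with h2 | h2
    · apply h2; rw [h, h0, mul_zero]
    · exact h2 h0
  rw [gm_some h1, h, mul_div_cancel_right₀ _ h1]

/-- `∞` is mapped to `y` if the degree of `A - y B` is small -/
lemma gm_none (hd : 1 ≤ d) (hmax : max A.natDegree B.natDegree = d) {y : L}
    (h : (A - C y * B).coeff d = 0) : gm d A B none = some y := by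
  rw [coeff_sub, coeff_C_mul, sub_eq_zero] at h
  have h1 : B.coeff d ≠ 0 := by
    intro h0
    rcases Pool.Agent.Q144.SU.coeff_of_max hd hmax with h2 | h2
    · apply h2; rw [h, h0, mul_zero]
    · exact h2 h0
  show pt (A.coeff d) (B.coeff d) = some y
  rw [pt_ne _ h1, h, mul_div_cancel_right₀ _ h1]

lemma sub_deg (hmax : max A.natDegree B.natDegree = d) (y : L) :
    (A - C y * B).natDegree ≤ d := by
  have hA : A.natDegree ≤ d := hmax ▸ le_max_left _ _
  have hB : B.natDegree ≤ d := hmax ▸ le_max_right _ _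
  exact (natDegree_sub_le _ _).trans (max_le hA ((natDegree_C_mul_le _ _).trans hB))

lemma gm_surj [IsAlgClosed L] (hd : 1 ≤ d) (hco : IsCoprime A B)
    (hmax : max A.natDegree B.natDegree = d) (y : L) : ∃ s, gm d A B s = some y := by
  by_cases h : (A - C y * B).coeff d = 0
  · exact ⟨none, gm_none hd hmax h⟩
  · have h1 : (A - C y * B).natDegree = d :=
      le_antisymm (sub_deg hmax y) (le_natDegree_of_ne_zero h)
    have h2 : (A - C y * B).degree ≠ 0 := by
      intro h0
      have h3 : (A - C y * B).natDegree = 0 := natDegree_eq_zero_iff_degree_le_zero.2 h0.le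
      rw [h1] at h3
      omega
    obtain ⟨x, hx⟩ := IsAlgClosed.exists_root _ h2
    exact ⟨some x, gm_root hco hx⟩

/-- the value at a noncritical point has a second preimage -/
lemma second_preimage [IsAlgClosed L] (hd : 2 ≤ d) (hco : IsCoprime A B)
    (hmax : max A.natDegree B.natDegree = d) {x y : L} (hB : B.eval x ≠ 0)
    (hw : (wr A B).eval x ≠ 0) (hy : y = A.eval x / B.eval x) :
    ∃ s, s ≠ some x ∧ gm d A B s = some y := by
  by_cases h : (A - C y * B).coeff d = 0
  · exact ⟨none, by simp, gm_none (by omega) hmax h⟩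
  · have h1 : (A - C y * B).natDegree = d :=
      le_antisymm (sub_deg hmax y) (le_natDegree_of_ne_zero h)
    have h0 : A - C y * B ≠ 0 := by
      rintro h2
      rw [h2, coeff_zero] at h
      exact h rfl
    by_contra hcon
    push Not at hcon
    have hall : ∀ r ∈ (A - C y * B).roots, r = x := by
      intro r hr
      by_contra hne
      exact hcon (some r) (fun h3 => hne (Option.some.inj h3))
        (gm_root hco (isRoot_of_mem_roots hr))
    have hcard : (A - C y * B).roots.card = d := by
      rw [← (IsAlgClosed.splits (A - C y * B)).natDegree_eq_card_roots, h1]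
    have hrep : (A - C y * B).roots = Multiset.replicate d x := by
      rw [Multiset.eq_replicate]
      exact ⟨hcard, hall⟩
    have hmult : 1 < (A - C y * B).rootMultiplicity x := by
      classical
      rw [← count_roots, hrep, Multiset.count_replicate_self]
      omega
    have h3 := ((one_lt_rootMultiplicity_iff_isRoot h0).1 hmult).2
    rw [IsRoot.def, derivative_sub, derivative_C_mul, eval_sub, eval_mul, eval_C,
      sub_eq_zero] at h3
    apply hw
    unfold wr
    rw [eval_sub, eval_mul, eval_mul, h3, hy]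
    field_simp
    ring

end

/-- A finite set of primes. -/
lemma exists_primes (n m l : ℕ) : ∃ s : Finset ℕ, s.card = n ∧
    ∀ p ∈ s, p.Prime ∧ m < p ∧ p ≠ l := by
  have h1 : {p : ℕ | p.Prime ∧ m < p ∧ p ≠ l}.Infinite := by
    have h2 : {p : ℕ | p.Prime ∧ m < p ∧ p ≠ l} =
        {p : ℕ | p.Prime} \ ((Set.Iic m) ∪ {l}) := by
      ext p
      simp only [Set.mem_ofPred_eq, Set.mem_sdiff, Set.mem_union, Set.mem_Iic,
        Set.mem_singleton_iff]
      constructor
      · rintro ⟨h3, h4, h5⟩
        refine ⟨h3, ?_⟩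
        rintro (h6 | h6)
        · omega
        · exact h5 h6
      · rintro ⟨h3, h4⟩
        refine ⟨h3, ?_, fun h5 => h4 (Or.inr h5)⟩
        by_contra h5
        exact h4 (Or.inl (not_lt.1 h5))
    rw [h2]
    exact Nat.infinite_setOfPred_prime.sdiff ((Set.finite_Iic m).union (Set.finite_singleton l))
  obtain ⟨s, hs1, hs2⟩ := h1.exists_subset_card_eq n
  exact ⟨s, hs2, fun p hp => hs1 hp⟩

section cyc

variable {L : Type u} [Field L] {d : ℕ} {A B : L[X]}

lemma orbit_iter {y : ℕ → L}
    (hy : ∀ i, B.eval (y i) ≠ 0 ∧ y (i + 1) = A.eval (y i) / B.eval (y i)) (i j : ℕ) :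
    (gm d A B)^[j] (some (y i)) = some (y (i + j)) := by
  induction j with
  | zero => rfl
  | succ j ih =>
    rw [Function.iterate_succ_apply', ih, gm_some (hy _).1, ← (hy _).2]
    rfl

lemma min_period {y : ℕ → L} {p : ℕ} (hp : p.Prime)
    (hy : ∀ i, B.eval (y i) ≠ 0 ∧ y (i + 1) = A.eval (y i) / B.eval (y i)) (h1 : y p = y 0)
    (h2 : y 1 ≠ y 0) (i : ℕ) : Function.minimalPeriod (gm d A B) (some (y i)) = p := by
  have : Fact p.Prime := ⟨hp⟩
  have h3 : Function.IsPeriodicPt (gm d A B) p (some (y 0)) := by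
    show (gm d A B)^[p] (some (y 0)) = some (y 0)
    rw [orbit_iter hy, zero_add, h1]
  have h4 : ¬ Function.IsFixedPt (gm d A B) (some (y 0)) := by
    intro h5
    apply h2
    have h6 := orbit_iter (d := d) hy 0 1
    rw [Function.iterate_one, h5] at h6
    exact (Option.some.inj h6).symm
  have h5 := Function.minimalPeriod_eq_prime h3 h4
  have h6 : (some (y i) : Option L) = (gm d A B)^[i] (some (y 0)) := by
    rw [orbit_iter hy, zero_add]
  rw [h6, Function.minimalPeriod_apply_iterate, h5]
  exact ⟨p, hp.pos, h3⟩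

end cyc

theorem cycP : S_cycP.{u} := by
  intro l D₀ hl hD
  obtain ⟨Ps, hPs1, hPs2⟩ := exists_primes (4 * D₀ + 10) (8 * D₀ + 8) l
  refine ⟨Ps.sup id, ?_⟩
  intro L _ _ _ _ P Q hRM hwr
  classical
  have hd1 : 1 ≤ D₀ := by omega
  have hPd : P.natDegree ≤ D₀ := hRM.deg ▸ le_max_left _ _
  have hQd : Q.natDegree ≤ D₀ := hRM.deg ▸ le_max_right _ _
  have hQ0 : Q ≠ 0 := B_ne hd1 hRM.co hRM.deg
  obtain ⟨bad, hbad, hmain⟩ := prcP l D₀ L P Q hRM hD
  -- the critical points and the poles
  set Cr : Finset L := (wr P Q).roots.toFinset ∪ Q.roots.toFinset with hCr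
  have hCr1 : Cr.card ≤ 3 * D₀ := by
    have h1 : (wr P Q).natDegree ≤ 2 * D₀ := by
      unfold wr
      have h2 := natDegree_derivative_le P
      have h3 := natDegree_derivative_le Q
      refine (natDegree_sub_le _ _).trans (max_le ?_ ?_)
      · exact natDegree_mul_le.trans (by omega)
      · exact natDegree_mul_le.trans (by omega)
    have h2 := card_union_le (wr P Q).roots.toFinset Q.roots.toFinset
    have h3 := (Multiset.toFinset_card_le (wr P Q).roots).trans (card_roots' _)
    have h4 := (Multiset.toFinset_card_le Q.roots).trans (card_roots' _)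
    rw [← hCr] at h2
    omega
  have hCr2 : ∀ x, x ∉ Cr → Q.eval x ≠ 0 ∧ (wr P Q).eval x ≠ 0 := by
    intro x hx
    rw [hCr, mem_union, not_or, Multiset.mem_toFinset, Multiset.mem_toFinset, mem_roots hwr,
      mem_roots hQ0] at hx
    exact ⟨hx.2, hx.1⟩
  set f : Option L → Option L := gm D₀ P Q with hf
  -- the cycle
  have hcyc : ∃ p ∈ Ps, ∃ y : ℕ → L,
      (∀ i, Q.eval (y i) ≠ 0 ∧ y (i + 1) = P.eval (y i) / Q.eval (y i)) ∧
      y p = y 0 ∧ y 1 ≠ y 0 ∧ ∀ i, y i ∉ Cr := by
    by_contra hcon
    push Not at hcon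
    have h1 : ∀ p : ℕ, ∃ c : L, p ∈ Ps \ bad → c ∈ Cr ∧
        Function.minimalPeriod f (some c) = p := by
      intro p
      by_cases hp : p ∈ Ps \ bad
      · obtain ⟨hp1, hp2⟩ := mem_sdiff.1 hp
        obtain ⟨hp3, hp4, hp5⟩ := hPs2 p hp1
        obtain ⟨y, hy1, hy2, hy3⟩ := hmain p hp3 hp5 hp2
        obtain ⟨i, hi⟩ := hcon p hp1 y hy1 hy2 hy3
        exact ⟨y i, fun _ => ⟨hi, min_period hp3 hy1 hy2 hy3 i⟩⟩
      · exact ⟨0, fun h => absurd h hp⟩
    choose c hc using h1
    have h2 : (Ps \ bad).card ≤ Cr.card := by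
      refine card_le_card_of_injOn c (fun p hp => (hc p hp).1) ?_
      intro p hp p' hp' hpp
      rw [← (hc p hp).2, ← (hc p' hp').2, hpp]
    have h3 := le_card_sdiff bad Ps
    omega
  obtain ⟨p, hpPs, y, hy1, hy2, hy3, hy4⟩ := hcyc
  obtain ⟨hp, hp8, -⟩ := hPs2 p hpPs
  have hper : ∀ i, Function.minimalPeriod f (some (y i)) = p := min_period hp hy1 hy2 hy3
  -- injectivity on the cycle
  have hinj : ∀ i j, y (i + 1) = y (j + 1) → y i = y j := by
    intro i j hij
    have h1 : ∀ k, y (k + p) = y k := by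
      intro k
      have h2 : Function.IsPeriodicPt f p (some (y k)) := by
        rw [← hper k]; exact Function.isPeriodicPt_minimalPeriod _ _
      have h3 := orbit_iter (d := D₀) hy1 k p
      rw [← hf, h2.eq] at h3
      exact (Option.some.inj h3).symm
    have h2 : ∀ k, y (k + 1 + (p - 1)) = y k := by
      intro k
      rw [show k + 1 + (p - 1) = k + p by have := hp.pos; omega]
      exact h1 k
    have h3 := orbit_iter (d := D₀) hy1 (i + 1) (p - 1)
    have h4 := orbit_iter (d := D₀) hy1 (j + 1) (p - 1)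
    rw [hij, h4, h2, h2] at h3
    exact (Option.some.inj h3).symm
  -- the second preimages
  have hpre : ∀ i, ∃ s, (∀ k, s ≠ some (y k)) ∧ f s = some (y (i + 1)) := by
    intro i
    obtain ⟨h1, h2⟩ := hCr2 _ (hy4 i)
    obtain ⟨s, hs1, hs2⟩ := second_preimage hD hRM.co hRM.deg h1 h2 (hy1 i).2
    refine ⟨s, ?_, hs2⟩
    intro k hk
    apply hs1
    have h3 := orbit_iter (d := D₀) hy1 k 1
    rw [Function.iterate_one, ← hk, hs2] at h3
    rw [hk, hinj k i (Option.some.inj h3).symm]
  choose s hs1 hs2 using hpre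
  -- the branches
  set br : ℕ → Set (Option L) := fun i => {b | ∃ n, f^[n] b = s i} with hbr
  have hZ : ∀ k n, ∃ k', f^[n] (some (y k)) = some (y k') := fun k n =>
    ⟨k + n, orbit_iter hy1 k n⟩
  have htime : ∀ (b : Option L) (i j n m : ℕ), f^[n] b = s i → f^[m] b = s j → ¬ n < m := by
    intro b i j n m h1 h2 hnm
    obtain ⟨r, rfl⟩ : ∃ r, m = r + (1 + n) := ⟨m - (1 + n), by omega⟩
    rw [Function.iterate_add_apply, Function.iterate_add_apply, h1, Function.iterate_one,
      hs2] at h2
    obtain ⟨k', hk'⟩ := hZ (i + 1) r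
    rw [hk'] at h2
    exact hs1 j k' h2.symm
  have hdisj : ∀ (b : Option L) (i j : ℕ), b ∈ br i → b ∈ br j → y (i + 1) = y (j + 1) := by
    rintro b i j ⟨n, hn⟩ ⟨m, hm⟩
    have h1 := htime b i j n m hn hm
    have h2 := htime b j i m n hm hn
    have h3 : n = m := by omega
    rw [h3, hm] at hn
    have h4 := hs2 i
    rw [← hn, hs2 j] at h4
    exact (Option.some.inj h4).symm
  -- a good branch
  have hgood : ∃ i, ∀ b ∈ br i, ∃ x : L, b = some x ∧ x ∉ Cr := by
    by_contra hcon
    push Not at hcon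
    choose b hb1 hb2 using hcon
    have h1 : p ≤ (insert none (Cr.map Function.Embedding.some)).card := by
      have h2 : (range p).card ≤ (insert none (Cr.map Function.Embedding.some)).card := by
        refine card_le_card_of_injOn b ?_ ?_
        · intro i _
          rw [mem_coe, mem_insert]
          rcases hbi : b i with _ | x
          · exact Or.inl rfl
          · right
            rw [mem_map]
            refine ⟨x, hb2 i x hbi, rfl⟩
        · intro i hi j hj hij
          have h3 := hdisj (b i) i j (hb1 i) (by rw [hij]; exact hb1 j)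
          have h4 := hinj i j h3
          have h5 := Function.iterate_injOn_Iio_minimalPeriod (f := f) (x := some (y 0))
          rw [hper 0] at h5
          apply h5
          · exact mem_range.1 hi
          · exact mem_range.1 hj
          · show f^[i] (some (y 0)) = f^[j] (some (y 0))
            rw [hf, orbit_iter hy1, orbit_iter hy1, zero_add, zero_add, h4]
      rwa [card_range] at h2
    have h2 := card_insert_le none (Cr.map Function.Embedding.some)
    rw [card_map] at h2
    omega
  obtain ⟨i, hi⟩ := hgood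
  -- the chain of preimages
  have hstep : ∀ b : br i, ∃ b' : br i, f b'.1 = b.1 := by
    rintro ⟨b, hb⟩
    obtain ⟨x, rfl, hx⟩ := hi b hb
    obtain ⟨b', hb'⟩ := gm_surj hd1 hRM.co hRM.deg x
    obtain ⟨n, hn⟩ := hb
    refine ⟨⟨b', n + 1, ?_⟩, hb'⟩
    rw [Function.iterate_succ_apply]
    show f^[n] (f b') = s i
    rw [hf, hb', ← hf, hn]
  choose g hg using hstep
  have hs0 : s i ∈ br i := ⟨0, rfl⟩
  set ch : ℕ → br i := fun k => g^[k] ⟨s i, hs0⟩ with hch
  have hch1 : ∀ k, f^[k] (ch k).1 = s i := by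
    intro k
    induction k with
    | zero => rfl
    | succ k ih =>
      rw [Function.iterate_succ_apply]
      have h1 : ch (k + 1) = g (ch k) := Function.iterate_succ_apply' _ _ _
      rw [h1, hg, ih]
  refine ⟨p, fun k => y (i + 1 + k), {z | some z ∈ br i}, hp.one_le,
    Finset.le_sup (f := id) hpPs, fun k => hy1 (i + 1 + k), ?_, ?_, ?_⟩
  · show y (i + 1 + p) = y (i + 1 + 0)
    have h2 : Function.IsPeriodicPt f p (some (y (i + 1))) := by
      rw [← hper (i + 1)]; exact Function.isPeriodicPt_minimalPeriod _ _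
    have h3 := orbit_iter (d := D₀) hy1 (i + 1) p
    rw [← hf, h2.eq] at h3
    exact (Option.some.inj h3).symm
  · choose x hx1 hx2 using fun k => hi (ch k).1 (ch k).2
    refine Set.infinite_of_injective_forall_mem (f := x) ?_ ?_
    · intro j k hjk
      have h1 : (ch j).1 = (ch k).1 := by rw [hx1, hx1, hjk]
      have h2 := hch1 j
      rw [h1] at h2
      have h3 := htime (ch k).1 i i j k h2 (hch1 k)
      have h4 := htime (ch k).1 i i k j (hch1 k) h2
      omega
    · intro k
      show some (x k) ∈ br i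
      rw [← hx1]
      exact (ch k).2
  · rintro z ⟨n, hn⟩
    have h1 : ∀ k ≤ n, f^[k] (some z) ∈ br i := by
      intro k hk
      refine ⟨n - k, ?_⟩
      rw [← Function.iterate_add_apply, Nat.sub_add_cancel hk, hn]
    have h2 : ∀ k, ∃ v : L, f^[k] (some z) = some v ∧ (k ≤ n → v ∉ Cr) := by
      intro k
      by_cases hk : k ≤ n
      · obtain ⟨x, hx1, hx2⟩ := hi _ (h1 k hk)
        exact ⟨x, hx1, fun _ => hx2⟩
      · obtain ⟨r, rfl⟩ : ∃ r, k = r + (1 + n) := ⟨k - (1 + n), by omega⟩
        rw [Function.iterate_add_apply, Function.iterate_add_apply, hn, Function.iterate_one, hs2]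
        obtain ⟨k', hk'⟩ := hZ (i + 1) r
        exact ⟨y k', hk', fun h => absurd h hk⟩
    choose v hv1 hv2 using h2
    refine ⟨n + 1, v, ?_, ?_, ?_⟩
    · exact (Option.some.inj (hv1 0)).symm
    · show v (n + 1) = y (i + 1 + 0)
      have h3 := hv1 (n + 1)
      rw [Function.iterate_succ_apply', hn, hs2] at h3
      exact (Option.some.inj h3).symm
    · intro k hk
      obtain ⟨h3, h4⟩ := hCr2 _ (hv2 k (by omega))
      refine ⟨h3, h4, ?_⟩
      have h5 := hv1 (k + 1)
      rw [Function.iterate_succ_apply', hv1 k, hf, gm_some h3] at h5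
      exact (Option.some.inj h5).symm

end Pool.Agent.Q92.SP
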