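import Mathlib
import Pool.Agent.Q41.SP.Stm4

/-! Project SP (helper41), job N11 (S_psP). -/

set_option autoImplicit false

namespace Pool.Agent.Q92.SP

universe u

variable {L : Type u} [Field L]

/-- the absolute value `exp (-order)` of the Laurent series -/
noncomputable def av (L : Type u) [Field L] : AbsoluteValue (LaurentSeries L) ℝ := by
  classical
  exact
  { toFun := fun x => if x = 0 then 0 else Real.exp (-(x.order : ℝ))
    map_mul' := by
      intro x y
      by_cases hx : x = 0
      · simp [hx]
      by_cases hy : y = 0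
      · simp [hy]
      simp only [mul_eq_zero, hx, hy, or_self, if_false]
      rw [HahnSeries.order_mul hx hy, ← Real.exp_add]
      congr 1
      push_cast
      ring
    nonneg' := by
      intro x
      show 0 ≤ (if x = 0 then (0:ℝ) else Real.exp (-(x.order : ℝ)))
      split_ifs
      · exact le_refl 0
      · exact (Real.exp_pos _).le
    eq_zero' := by
      intro x
      show (if x = 0 then (0:ℝ) else Real.exp (-(x.order : ℝ))) = 0 ↔ x = 0
      split_ifs with h
      · simp [h]
      · simp [h, (Real.exp_pos _).ne']
    add_le' := by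
      intro x y
      show (if x + y = 0 then (0:ℝ) else Real.exp (-((x + y).order : ℝ))) ≤
        (if x = 0 then (0:ℝ) else Real.exp (-(x.order : ℝ))) +
        (if y = 0 then (0:ℝ) else Real.exp (-(y.order : ℝ)))
      by_cases hx : x = 0
      · simp [hx]
      by_cases hy : y = 0
      · simp [hy]
      by_cases hxy : x + y = 0
      · simp only [hxy, if_true, hx, hy, if_false]
        positivity
      simp only [hx, hy, hxy, if_false]
      have h := HahnSeries.min_order_le_order_add hxy
      rcases min_choice (x.order) (y.order) with h' | h'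
      · rw [h'] at h
        have : Real.exp (-((x + y).order : ℝ)) ≤ Real.exp (-(x.order : ℝ)) :=
          Real.exp_le_exp.mpr (by
            have : (x.order : ℝ) ≤ ((x + y).order : ℝ) := by exact_mod_cast h
            linarith)
        have h2 := Real.exp_pos (-(y.order : ℝ))
        linarith
      · rw [h'] at h
        have : Real.exp (-((x + y).order : ℝ)) ≤ Real.exp (-(y.order : ℝ)) :=
          Real.exp_le_exp.mpr (by
            have : (y.order : ℝ) ≤ ((x + y).order : ℝ) := by exact_mod_cast h
            linarith)
        have h2 := Real.exp_pos (-(x.order : ℝ))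
        linarith }

theorem av_apply {x : LaurentSeries L} (hx : x ≠ 0) : av L x = Real.exp (-(x.order : ℝ)) := by
  classical
  show (if x = 0 then (0:ℝ) else Real.exp (-(x.order : ℝ))) = _
  rw [if_neg hx]

theorem av_ps (f : PowerSeries L) (n : ℕ) :
    av L (HahnSeries.ofPowerSeries ℤ L f) ≤ Real.exp (-(n : ℝ)) ↔
      (PowerSeries.X : PowerSeries L) ^ n ∣ f := by
  by_cases hf : f = 0
  · subst hf
    simp only [map_zero, dvd_zero, iff_true]
    exact (Real.exp_pos _).le
  have hf' : HahnSeries.ofPowerSeries ℤ L f ≠ 0 := by
    intro h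
    apply hf
    apply HahnSeries.ofPowerSeries_injective (Γ := ℤ)
    rw [h, map_zero]
  rw [av_apply hf', Real.exp_le_exp, PowerSeries.X_pow_dvd_iff]
  constructor
  · intro h m hm
    by_contra hne
    have h1 : (HahnSeries.ofPowerSeries ℤ L f).order ≤ (m : ℤ) := by
      apply HahnSeries.order_le_of_coeff_ne_zero
      have h2 := HahnSeries.ofPowerSeries_apply_coeff (Γ := ℤ) f m
      rw [h2]
      exact hne
    have h3 : ((HahnSeries.ofPowerSeries ℤ L f).order : ℝ) ≤ (m : ℝ) := by exact_mod_cast h1
    have h4 : (m : ℝ) < n := by exact_mod_cast hm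
    linarith
  · intro h
    have h0 : (HahnSeries.ofPowerSeries ℤ L f).coeff
        (HahnSeries.ofPowerSeries ℤ L f).order ≠ 0 := by
      intro h1
      exact hf' (HahnSeries.coeff_order_eq_zero.1 h1)
    by_cases hr : (HahnSeries.ofPowerSeries ℤ L f).order ∈
        Set.range (Nat.castOrderEmbedding : ℕ ↪o ℤ)
    · obtain ⟨m, hm⟩ := hr
      have hm' : ((m : ℕ) : ℤ) = (HahnSeries.ofPowerSeries ℤ L f).order := hm
      rw [← hm', HahnSeries.ofPowerSeries_apply_coeff] at h0
      have h2 : n ≤ m := by
        by_contra h3
        exact h0 (h m (by omega))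
      rw [← hm']
      have h3 : (n : ℝ) ≤ m := by exact_mod_cast h2
      push_cast
      linarith
    · exfalso
      apply h0
      rw [HahnSeries.ofPowerSeries_apply]
      exact HahnSeries.embDomain_notin_range hr

theorem psP : Pool.Agent.Q41.SP.S_psP.{u} := by
  intro L _
  let a := av L
  have hnat : ∀ n : ℕ, a (n : LaurentSeries L) ≤ 1 := by
    intro n
    have h1 : ((n : ℕ) : LaurentSeries L) =
        HahnSeries.ofPowerSeries ℤ L ((n : ℕ) : PowerSeries L) := by
      rw [map_natCast]
    rw [h1]
    have h2 := (av_ps ((n : ℕ) : PowerSeries L) 0).2 (by simp)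
    simpa using h2
  haveI hu : IsUltrametricDist a.Completion := by
    rw [isUltrametricDist_iff_forall_norm_natCast_le_one]
    intro n
    have h1 : ((n : ℕ) : a.Completion) = ((n : WithAbs a) : a.Completion) := by
      have := map_natCast (UniformSpace.Completion.coeRingHom (α := WithAbs a)) n
      exact this.symm
    rw [h1, UniformSpace.Completion.norm_coe]
    exact hnat n
  have hcoe : ∀ x : LaurentSeries L,
      ‖((WithAbs.toAbs a x : WithAbs a) : a.Completion)‖ = a x := by
    intro x
    rw [UniformSpace.Completion.norm_coe]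
    rfl
  have hX : (HahnSeries.single (1 : ℤ) (1 : L) : LaurentSeries L) ≠ 0 := by
    rw [Ne, HahnSeries.single_eq_zero_iff]
    exact one_ne_zero
  have haX : a (HahnSeries.single (1 : ℤ) (1 : L))⁻¹ = Real.exp 1 := by
    rw [map_inv₀, show a = av L from rfl, av_apply hX, HahnSeries.order_single one_ne_zero,
      ← Real.exp_neg]
    simp
  have hnt : ∃ x : a.Completion, 1 < ‖x‖ := by
    refine ⟨((WithAbs.toAbs a (HahnSeries.single (1 : ℤ) (1 : L))⁻¹ : WithAbs a) :
      a.Completion), ?_⟩
    rw [hcoe, haX]
    exact Real.one_lt_exp_iff.mpr one_pos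
  letI : NontriviallyNormedField a.Completion :=
    { (inferInstance : NormedField a.Completion) with non_trivial := hnt }
  let Ω := AlgebraicClosure a.Completion
  let i : LaurentSeries L →+* a.Completion := (UniformSpace.Completion.coeRingHom
    (α := WithAbs a)).comp (WithAbs.equiv a).symm.toRingHom
  have hi : ∀ x, ‖i x‖ = a x := hcoe
  letI hΩ : NormedField Ω := spectralNorm.normedField a.Completion Ω
  have hn : ∀ x, ‖algebraMap a.Completion Ω (i x)‖ = a x := by
    intro x
    have h1 := spectralNorm_extends (K := a.Completion) (L := Ω) (i x)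
    rw [hi] at h1
    exact h1
  refine ⟨Ω, hΩ, ?_, inferInstance,
    (algebraMap a.Completion Ω).comp (i.comp (HahnSeries.ofPowerSeries ℤ L)), ?_⟩
  · apply IsUltrametricDist.isUltrametricDist_of_isNonarchimedean_norm
    exact isNonarchimedean_spectralNorm (K := a.Completion) (L := Ω)
  · intro f n
    have h1 : ‖((algebraMap a.Completion Ω).comp
        (i.comp (HahnSeries.ofPowerSeries ℤ L))) f‖ = a (HahnSeries.ofPowerSeries ℤ L f) := hn _
    rw [h1]
    exact av_ps f n

end Pool.Agent.Q92.SP
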