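import Pool.Agent.Q41.SP.Stm4
import Mathlib

/-!
# Local models propagate forward

Statement `S_regP` of `Pool.Agent.Q41.SP.Stm4`. Instead of the local ring at `y` the ring
`PowerSeries (PowerSeries L)` is used: the outer variable is `δ`, the inner variable is the
local coordinate `t = X - y`.
-/

namespace Pool.Agent.Q92.SP.Reg

open Finset Polynomial
open Pool.Agent.Q41.SU Pool.Agent.Q41.SP

universe u

section basic

variable {L : Type u} [Field L]

/-- evaluation of a polynomial over `L` at a power series -/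
noncomputable def el (f : PowerSeries L) : L[X] →+* PowerSeries L :=
  eval₂RingHom PowerSeries.C f

/-- the embedding of the coefficients: `δ ↦ δ` -/
noncomputable def kap : PowerSeries L →+* PowerSeries (PowerSeries L) :=
  PowerSeries.map PowerSeries.C

/-- evaluation of a polynomial over `PowerSeries L` (variable `δ`) at a power series in `t` -/
noncomputable def ev (f : PowerSeries L) :
    (PowerSeries L)[X] →+* PowerSeries (PowerSeries L) :=
  eval₂RingHom kap (PowerSeries.C f)

theorem constantCoeff_kap (a : PowerSeries L) :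
    PowerSeries.constantCoeff (kap a) = PowerSeries.C (PowerSeries.constantCoeff a) := by
  unfold kap
  rw [← PowerSeries.coeff_zero_eq_constantCoeff_apply, PowerSeries.coeff_map,
    PowerSeries.coeff_zero_eq_constantCoeff_apply]

theorem kap_X : kap (PowerSeries.X : PowerSeries L) = PowerSeries.X := by
  unfold kap
  simp

theorem constantCoeff_ev (f : PowerSeries L) (g : (PowerSeries L)[X]) :
    PowerSeries.constantCoeff (ev f g) = el f (g.map PowerSeries.constantCoeff) := by
  have : (PowerSeries.constantCoeff (R := PowerSeries L)).comp (ev f) =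
      (el f).comp (mapRingHom PowerSeries.constantCoeff) := by
    refine Polynomial.ringHom_ext (fun a => ?_) ?_
    · simp [ev, el, constantCoeff_kap]
    · simp [ev, el]
  exact congrArg (fun h => h g) this

theorem el_const (f : PowerSeries L) (g : L[X]) :
    PowerSeries.constantCoeff (el f g) = g.eval (PowerSeries.constantCoeff f) := by
  have : (PowerSeries.constantCoeff (R := L)).comp (el f) =
      evalRingHom (PowerSeries.constantCoeff f) := by
    refine Polynomial.ringHom_ext (fun a => ?_) ?_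
    · simp [el]
    · simp [el]
  exact congrArg (fun h => h g) this

theorem ev_C (f : PowerSeries L) (a : PowerSeries L) : ev f (C a) = kap a := by
  simp [ev]

theorem el_C (f : PowerSeries L) (a : L) : el f (C a) = PowerSeries.C a := by
  simp [el]

theorem el_X (f : PowerSeries L) : el f X = f := by
  simp [el]

/-- the factorisation at the constant term -/
theorem fac (r : L) {a : L[X]} (ha : a ≠ 0) : ∃ (k : ℕ) (b : L[X]), b.eval r ≠ 0 ∧
    a = (X - C r) ^ k * b := by
  obtain ⟨b, h1, h2⟩ := exists_eq_pow_rootMultiplicity_mul_and_not_dvd a ha r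
  exact ⟨_, b, fun h => h2 (dvd_iff_isRoot.2 h), h1⟩

theorem el_unit {f : PowerSeries L} {b : L[X]} (hb : b.eval (PowerSeries.constantCoeff f) ≠ 0) :
    IsUnit (el f b) := by
  rw [PowerSeries.isUnit_iff_constantCoeff, el_const]
  exact isUnit_iff_ne_zero.2 hb

theorem el_ne {f : PowerSeries L} (hf : f ≠ PowerSeries.C (PowerSeries.constantCoeff f)) {a : L[X]}
    (ha : a ≠ 0) : el f a ≠ 0 := by
  obtain ⟨k, b, hb, rfl⟩ := fac (PowerSeries.constantCoeff f) ha
  rw [map_mul, map_pow, map_sub, el_C, el_X]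
  exact mul_ne_zero (pow_ne_zero _ (sub_ne_zero.2 hf)) (el_unit hb).ne_zero

theorem descend0 {f : PowerSeries L} (hf : f ≠ PowerSeries.C (PowerSeries.constantCoeff f))
    {a n : L[X]} (ha : a ≠ 0) (h : el f a ∣ el f n) :
    ∃ b c : L[X], b.eval (PowerSeries.constantCoeff f) ≠ 0 ∧ b * n = a * c := by
  by_cases hn : n = 0
  · exact ⟨1, 0, by simp, by simp [hn]⟩
  obtain ⟨k, b, hb, rfl⟩ := fac (PowerSeries.constantCoeff f) ha
  obtain ⟨m, n', hn', rfl⟩ := fac (PowerSeries.constantCoeff f) hn
  rw [map_mul, map_mul, map_pow, map_pow, map_sub, el_C, el_X] at h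
  have h1 := (el_unit hb).mul_right_dvd.1 h
  have h2 := (el_unit hn').dvd_mul_right.1 h1
  rw [pow_dvd_pow_iff (sub_ne_zero.2 hf)] at h2
  · refine ⟨b, (X - C (PowerSeries.constantCoeff f)) ^ (m - k) * n', hb, ?_⟩
    have h3 : (X - C (PowerSeries.constantCoeff f)) ^ m =
      (X - C (PowerSeries.constantCoeff f)) ^ k * (X - C (PowerSeries.constantCoeff f)) ^ (m - k) := by
      rw [← pow_add, Nat.add_sub_cancel' h2]
    rw [h3]
    ring
  · rw [PowerSeries.isUnit_iff_constantCoeff]
    simp

/-- divisibility by `δ` -/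
theorem dvd_of_map {g : (PowerSeries L)[X]} (h : g.map PowerSeries.constantCoeff = 0) :
    C (PowerSeries.X : PowerSeries L) ∣ g := by
  rw [C_dvd_iff_dvd_coeff]
  intro i
  rw [PowerSeries.X_dvd_iff, ← coeff_map, h, coeff_zero]

theorem map_C_const (b : L[X]) : (b.map PowerSeries.C).map PowerSeries.constantCoeff = b := by
  rw [Polynomial.map_map]
  have : (PowerSeries.constantCoeff (R := L)).comp PowerSeries.C = RingHom.id L := by
    ext x
    simp
  rw [this, Polynomial.map_id]

theorem descend {f : PowerSeries L} (hf : f ≠ PowerSeries.C (PowerSeries.constantCoeff f))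
    {Gb : (PowerSeries L)[X]} (hG : Gb.map PowerSeries.constantCoeff ≠ 0) (m : ℕ) :
    ∀ g : (PowerSeries L)[X], (∃ s w, ev f g = ev f Gb * s + PowerSeries.X ^ m * w) →
      ∃ (b : L[X]) (c : (PowerSeries L)[X]), b.eval (PowerSeries.constantCoeff f) ≠ 0 ∧
        C (PowerSeries.X ^ m) ∣ b.map PowerSeries.C * g - Gb * c := by
  induction m with
  | zero =>
    intro g _
    exact ⟨1, 0, by simp, by simp⟩
  | succ m ih =>
    rintro g ⟨s, w, h⟩
    have h0 := congrArg PowerSeries.constantCoeff h
    rw [map_add, map_mul, map_mul, constantCoeff_ev, constantCoeff_ev, map_pow,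
      PowerSeries.constantCoeff_X, zero_pow (Nat.succ_ne_zero m), zero_mul, add_zero] at h0
    obtain ⟨b1, c0, hb1, hbc⟩ := descend0 hf hG (Dvd.intro _ h0.symm)
    obtain ⟨g1, hg1⟩ := dvd_of_map (g := b1.map PowerSeries.C * g - Gb * c0.map PowerSeries.C) (by
      rw [Polynomial.map_sub, Polynomial.map_mul, Polynomial.map_mul, map_C_const, map_C_const, hbc,
        sub_self])
    have h1 : PowerSeries.X * ev f g1 = ev f Gb * (ev f (b1.map PowerSeries.C) * s -
        ev f (c0.map PowerSeries.C)) + PowerSeries.X ^ (m + 1) * (ev f (b1.map PowerSeries.C) * w) := by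
      have h2 := congrArg (ev f) hg1
      rw [map_mul, map_sub, map_mul, map_mul, ev_C, kap_X, h] at h2
      rw [← h2]
      ring
    have h2 : (PowerSeries.X : PowerSeries (PowerSeries L)) ∣ ev f Gb *
        (ev f (b1.map PowerSeries.C) * s - ev f (c0.map PowerSeries.C)) := by
      have h3 : ev f Gb * (ev f (b1.map PowerSeries.C) * s - ev f (c0.map PowerSeries.C)) =
          PowerSeries.X * (ev f g1 - PowerSeries.X ^ m * (ev f (b1.map PowerSeries.C) * w)) := by
        linear_combination (-1 : PowerSeries (PowerSeries L)) * h1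
      rw [h3]
      exact dvd_mul_right _ _
    have h3 : ¬ (PowerSeries.X : PowerSeries (PowerSeries L)) ∣ ev f Gb := by
      rw [PowerSeries.X_dvd_iff, constantCoeff_ev]
      exact el_ne hf hG
    obtain ⟨r1, hr1⟩ := (PowerSeries.X_prime.dvd_or_dvd h2).resolve_left h3
    obtain ⟨b2, c1, hb2, d, hd⟩ := ih g1 ⟨r1, ev f (b1.map PowerSeries.C) * w, by
      have hX : (PowerSeries.X : PowerSeries (PowerSeries L)) ≠ 0 := PowerSeries.X_ne_zero
      apply mul_left_cancel₀ hX
      rw [h1, hr1]
      ring⟩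
    refine ⟨b1 * b2, b2.map PowerSeries.C * c0.map PowerSeries.C + C PowerSeries.X * c1, ?_, d, ?_⟩
    · rw [eval_mul]
      exact mul_ne_zero hb1 hb2
    · rw [Polynomial.map_mul]
      have e1 : b1.map PowerSeries.C * b2.map PowerSeries.C * g -
          Gb * (b2.map PowerSeries.C * c0.map PowerSeries.C + C PowerSeries.X * c1) =
          b2.map PowerSeries.C * (b1.map PowerSeries.C * g - Gb * c0.map PowerSeries.C) -
            C PowerSeries.X * (Gb * c1) := by ring
      have e2 : b2.map PowerSeries.C * g1 = C (PowerSeries.X ^ m) * d + Gb * c1 := by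
        rw [← hd]; ring
      rw [e1, hg1, pow_succ, C_mul]
      linear_combination C PowerSeries.X * e2

end basic

section field

/-- a polynomial of small degree in a local coordinate -/
theorem small {D : Type*} [CommRing D] [IsDomain D] {c : D} {β : ℕ} {U e : D[X]}
    (hU : 2 ≤ β → (derivative U).eval c ≠ 0) (he : e.degree < β)
    (h : (X - C c) ^ β ∣ e.comp U) : e = 0 := by
  by_contra h0
  obtain ⟨b, h1, h2⟩ := exists_eq_pow_rootMultiplicity_mul_and_not_dvd e h0 (U.eval c)
  set k := e.rootMultiplicity (U.eval c) with hk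
  have hkβ : k < β := by
    have hb0 : b ≠ 0 := by
      rintro rfl
      exact h2 (dvd_zero _)
    have h3 : k ≤ e.natDegree := by
      have h5 := congrArg natDegree h1
      rw [natDegree_mul (pow_ne_zero _ (X_sub_C_ne_zero _)) hb0, natDegree_pow,
        natDegree_X_sub_C, mul_one] at h5
      omega
    have h4 := natDegree_lt_iff_degree_lt h0 |>.2 he
    omega
  obtain ⟨V, hV⟩ := dvd_iff_isRoot.2 (show (U - C (U.eval c)).IsRoot c by simp)
  have hcomp : e.comp U = (X - C c) ^ k * (V ^ k * b.comp U) := by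
    conv_lhs => rw [h1]
    rw [mul_comp, pow_comp, sub_comp, X_comp, C_comp, hV, mul_pow]
    ring
  have hβ : β = k + (β - k - 1) + 1 := by omega
  rw [hcomp, hβ, add_assoc, pow_add] at h
  have h3 := (mul_dvd_mul_iff_left (pow_ne_zero k (X_sub_C_ne_zero c))).1 h
  have h4 : (X - C c) ∣ V ^ k * b.comp U := (dvd_pow_self _ (Nat.succ_ne_zero _)).trans h3
  rw [dvd_iff_isRoot, IsRoot, eval_mul, eval_pow, eval_comp] at h4
  have h5 : b.eval (U.eval c) ≠ 0 := fun h => h2 (dvd_iff_isRoot.2 h)
  rcases mul_eq_zero.1 h4 with h6 | h6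
  · have hk0 : k ≠ 0 := by
      rintro hk0
      rw [hk0, pow_zero] at h6
      exact one_ne_zero h6
    have h7 : V.eval c = 0 := pow_eq_zero_iff hk0 |>.1 h6
    refine hU (by omega) ?_
    have h8 := congrArg derivative hV
    rw [derivative_sub, derivative_C, sub_zero, derivative_mul, derivative_sub, derivative_X,
      derivative_C, sub_zero, one_mul] at h8
    rw [h8, eval_add, eval_mul, h7]
    simp
  · exact h5 h6

end field

section module

variable {R M : Type*} [CommRing R] [IsDomain R] [AddCommGroup M] [Module R M]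
  [Module.Free R M] [Module.Finite R M]

theorem dvd_free {p a : R} (hp : Prime p) (ha : ¬ p ∣ a) (m : ℕ) {x w : M}
    (h : a • x = p ^ m • w) : ∃ w' : M, x = p ^ m • w' := by
  classical
  let b := Module.Free.chooseBasis R M
  have h1 : ∀ i, p ^ m ∣ b.repr x i := by
    intro i
    have h2 := congrArg (fun y => b.repr y i) h
    simp only [map_smul, Finsupp.smul_apply, smul_eq_mul] at h2
    exact hp.pow_dvd_of_dvd_mul_left m ha (Dvd.intro _ h2.symm)
  choose c hc using h1
  refine ⟨∑ i, c i • b i, ?_⟩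
  conv_lhs => rw [← b.sum_repr x]
  rw [Finset.smul_sum]
  refine Finset.sum_congr rfl fun i _ => ?_
  rw [hc i, mul_smul]

omit [Module.Finite R M] in
theorem smul_cancel {a : R} (ha : a ≠ 0) {x y : M} (h : a • x = a • y) : x = y := by
  let b := Module.Free.chooseBasis R M
  apply b.repr.injective
  ext i
  have h1 := congrArg (fun z => b.repr z i) h
  simp only [map_smul, Finsupp.smul_apply, smul_eq_mul] at h1
  exact mul_left_cancel₀ ha h1

end module

section adjoin

variable {D : Type*} [CommRing D] [IsDomain D]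

theorem mk_comp {R : Type*} [CommRing R] (h U e : R[X]) :
    aeval (AdjoinRoot.mk h U) e = AdjoinRoot.mk h (e.comp U) := by
  rw [← AdjoinRoot.aeval_eq U, ← AdjoinRoot.aeval_eq (e.comp U), aeval_comp]

omit [IsDomain D] in
theorem dvd_of_map' {g : (PowerSeries D)[X]} (h : g.map PowerSeries.constantCoeff = 0) :
    C (PowerSeries.X : PowerSeries D) ∣ g := by
  rw [C_dvd_iff_dvd_coeff]
  intro i
  rw [PowerSeries.X_dvd_iff, ← coeff_map, h, coeff_zero]

theorem indep {β : ℕ} {c : D} {h U : (PowerSeries D)[X]} (hm : h.Monic)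
    (hh : h.map PowerSeries.constantCoeff = (X - C c) ^ β)
    (hU : 2 ≤ β → (derivative (U.map PowerSeries.constantCoeff)).eval c ≠ 0) (m : ℕ) :
    ∀ e : (PowerSeries D)[X], e.degree < β →
      (∃ w : AdjoinRoot h, aeval (AdjoinRoot.mk h U) e = (PowerSeries.X : PowerSeries D) ^ m • w) →
      C ((PowerSeries.X : PowerSeries D) ^ m) ∣ e := by
  have := hm.free_adjoinRoot
  have := hm.finite_adjoinRoot
  induction m with
  | zero =>
    intro e _ _
    simp
  | succ m ih =>
    rintro e he ⟨w, hw⟩
    have h0 : e.map PowerSeries.constantCoeff = 0 := by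
      refine small (c := c) (β := β) (U := U.map PowerSeries.constantCoeff) hU
        (degree_map_le.trans_lt he) ?_
      obtain ⟨W, rfl⟩ := AdjoinRoot.mk_surjective w
      rw [mk_comp, Algebra.smul_def, AdjoinRoot.algebraMap_eq, ← AdjoinRoot.mk_C, ← map_mul,
        AdjoinRoot.mk_eq_mk] at hw
      obtain ⟨T, hT⟩ := hw
      have h1 := congrArg (Polynomial.map PowerSeries.constantCoeff) hT
      rw [Polynomial.map_sub, Polynomial.map_mul, Polynomial.map_mul, Polynomial.map_C, map_pow,
        PowerSeries.constantCoeff_X, zero_pow (Nat.succ_ne_zero m), C_0, zero_mul, sub_zero,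
        Polynomial.map_comp, hh] at h1
      exact Dvd.intro _ h1.symm
    obtain ⟨e1, rfl⟩ := dvd_of_map' h0
    have hX : (PowerSeries.X : PowerSeries D) ≠ 0 := PowerSeries.X_ne_zero
    have h2 : e1.degree < β := by rwa [degree_C_mul hX] at he
    rw [pow_succ', C_mul]
    refine mul_dvd_mul_left _ (ih e1 h2 ⟨w, ?_⟩)
    apply smul_cancel hX
    rw [map_mul, aeval_C, ← Algebra.smul_def] at hw
    rw [hw, pow_succ', mul_smul]

end adjoin

section main

variable {L : Type u} [Field L]

theorem dv_iff {E : Type*} [Field E] {M : ℕ} {G : (PowerSeries E)[X][X]} :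
    Dv M G ↔ (C (C (PowerSeries.X ^ M)) : (PowerSeries E)[X][X]) ∣ G := by
  rw [C_dvd_iff_dvd_coeff]
  unfold Dv
  exact forall_congr' fun i => (C_dvd_iff_dvd_coeff _ _).symm

theorem common {r : L} {Gb : (PowerSeries L)[X]} {m : ℕ} (g : ℕ → (PowerSeries L)[X])
    (h : ∀ j, ∃ (b : L[X]) (c : (PowerSeries L)[X]), b.eval r ≠ 0 ∧
      C (PowerSeries.X ^ m) ∣ b.map PowerSeries.C * g j - Gb * c) (n : ℕ) :
    ∃ b : L[X], b.eval r ≠ 0 ∧ ∀ j < n, ∃ c : (PowerSeries L)[X],
      C (PowerSeries.X ^ m) ∣ b.map PowerSeries.C * g j - Gb * c := by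
  induction n with
  | zero => exact ⟨1, by simp, fun j hj => absurd hj (Nat.not_lt_zero j)⟩
  | succ n ih =>
    obtain ⟨b, hb, hc⟩ := ih
    obtain ⟨b', c', hb', hc'⟩ := h n
    refine ⟨b * b', by rw [eval_mul]; exact mul_ne_zero hb hb', fun j hj => ?_⟩
    rcases Nat.lt_succ_iff_lt_or_eq.1 hj with hj | rfl
    · obtain ⟨c, hc⟩ := hc j hj
      refine ⟨b'.map PowerSeries.C * c, ?_⟩
      have e : (b * b').map PowerSeries.C * g j - Gb * (b'.map PowerSeries.C * c) =
          b'.map PowerSeries.C * (b.map PowerSeries.C * g j - Gb * c) := by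
        rw [Polynomial.map_mul]; ring
      rw [e]
      exact hc.mul_left _
    · refine ⟨b.map PowerSeries.C * c', ?_⟩
      have e : (b * b').map PowerSeries.C * g j - Gb * (b.map PowerSeries.C * c') =
          b.map PowerSeries.C * (b'.map PowerSeries.C * g j - Gb * c') := by
        rw [Polynomial.map_mul]; ring
      rw [e]
      exact hc'.mul_left _

theorem ev_hcr {f F : PowerSeries L} {P Q : L[X]} (hF : F * el f Q = el f P) {H : ℕ}
    {g : (PowerSeries L)[X]} (hg : g.natDegree ≤ H) :
    ev f (hcr H g (P.map PowerSeries.C) (Q.map PowerSeries.C)) =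
      PowerSeries.C (el f Q) ^ H * ev F g := by
  have h1 : ∀ p : L[X], ev f (p.map PowerSeries.C) = PowerSeries.C (el f p) := by
    intro p
    have : (ev f).comp (mapRingHom PowerSeries.C) =
        (PowerSeries.C (R := PowerSeries L)).comp (el f) := by
      refine Polynomial.ringHom_ext (fun a => ?_) ?_
      · simp [ev, el, kap]
      · simp [ev, el]
    exact congrArg (fun h => h p) this
  unfold hcr
  rw [map_sum]
  simp only [map_mul, map_pow, h1, ev_C]
  rw [← hF]
  have h2 : ev F g = ∑ i ∈ range (H + 1), kap (g.coeff i) * PowerSeries.C F ^ i := by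
    unfold ev
    rw [coe_eval₂RingHom, eval₂_eq_sum_range' kap (Nat.lt_succ_of_le hg)]
  rw [h2, Finset.mul_sum]
  refine Finset.sum_congr rfl fun i hi => ?_
  have hi' : i ≤ H := Nat.lt_succ_iff.1 (mem_range.1 hi)
  have h3 : PowerSeries.C (el f Q) ^ H = PowerSeries.C (el f Q) ^ i * PowerSeries.C (el f Q) ^ (H - i) := by
    rw [← pow_add, Nat.add_sub_cancel' hi']
  rw [h3, map_mul, mul_pow]
  ring

/-- the Frobenius and `el` -/
theorem el_frob {l r : ℕ} [Fact l.Prime] [CharP L l] (f : PowerSeries L) (g : L[X]) :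
    (g.map ((PowerSeries.C (R := L)).comp (iterateFrobenius L l r))).eval (f ^ l ^ r) =
      (el f g) ^ l ^ r := by
  have hc : CharP (PowerSeries L) l :=
    charP_of_injective_ringHom (PowerSeries.C_injective (R := L)) l
  have : (eval₂RingHom ((PowerSeries.C (R := L)).comp (iterateFrobenius L l r)) (f ^ l ^ r)) =
      (iterateFrobenius (PowerSeries L) l r).comp (el f) := by
    refine Polynomial.ringHom_ext (fun a => ?_) ?_
    · simp [el, iterateFrobenius_def]
    · simp [el, iterateFrobenius_def]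
  have h1 := congrArg (fun h => h g) this
  simp only [coe_eval₂RingHom, RingHom.comp_apply, iterateFrobenius_def] at h1
  rw [eval_map, h1]

theorem wr_mapr' {A B : Type*} [Field A] [CommRing B] (φ : A →+* B) (P Q : A[X]) :
    (wr P Q).map φ = derivative (P.map φ) * Q.map φ - P.map φ * derivative (Q.map φ) := by
  unfold wr
  rw [Polynomial.map_sub, Polynomial.map_mul, Polynomial.map_mul, Polynomial.derivative_map,
    Polynomial.derivative_map]

theorem dU {D : Type*} [CommRing D] [IsDomain D] {P Q t s : D[X]} {c : D} {β : ℕ}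
    (hβ : 2 ≤ β) (hst : s * (X - C c) ^ β + t * Q = 1)
    (hw : (derivative P * Q - P * derivative Q).eval c ≠ 0) :
    (derivative (P * t)).eval c ≠ 0 := by
  intro h
  apply hw
  have h1 : P * t * Q = P - P * s * (X - C c) ^ β := by linear_combination P * hst
  have h2 := congrArg (eval c) h1
  have h3 := congrArg (fun q => eval c (derivative q)) h1
  have hβ0 : β ≠ 0 := by omega
  have hβ1 : β - 1 ≠ 0 := by omega
  simp only [derivative_mul (f := P * t), derivative_mul (f := P * s), derivative_X_sub_C_pow,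
    derivative_sub, eval_add, eval_sub, eval_mul, eval_pow, eval_X, eval_C, sub_self,
    zero_pow hβ0, zero_pow hβ1, mul_zero, sub_zero, add_zero] at h2 h3
  rw [h] at h3
  simp only [eval_sub, eval_mul]
  rw [zero_mul, zero_add] at h3
  rw [← h2, ← h3]
  ring

theorem red_lm {β M : ℕ} (hM : 1 ≤ M) {G H' : (PowerSeries L)[X][X]} {a : L[X]} {c : L[X]}
    (ha : a ≠ 0) (hred : red G = C a * (X - C c) ^ β)
    (hd : Dv M (C (H'.coeff β) * G - C (G.coeff β) * H')) :
    (G.coeff β).map PowerSeries.constantCoeff = a ∧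
      red H' = C ((H'.coeff β).map PowerSeries.constantCoeff) * (X - C c) ^ β := by
  have hm : ((X - C c) ^ β : L[X][X]).Monic := (monic_X_sub_C c).pow β
  have hdeg : ((X - C c) ^ β : L[X][X]).natDegree = β := by
    rw [(monic_X_sub_C c).natDegree_pow, natDegree_X_sub_C, mul_one]
  have h1 : (G.coeff β).map PowerSeries.constantCoeff = a := by
    have h2 : (red G).coeff β = (G.coeff β).map PowerSeries.constantCoeff := by
      unfold red
      rw [coeff_map, coe_mapRingHom]
    rw [← h2, hred, coeff_C_mul]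
    have h3 : ((X - C c) ^ β : L[X][X]).coeff β = 1 := by
      have := hm.coeff_natDegree
      rwa [hdeg] at this
    rw [h3, mul_one]
  refine ⟨h1, ?_⟩
  have h2 : red (C (H'.coeff β) * G - C (G.coeff β) * H') = 0 := by
    ext i j
    unfold red
    rw [coeff_map, coe_mapRingHom, coeff_map, coeff_zero, coeff_zero, ← PowerSeries.X_dvd_iff]
    exact (dvd_pow_self _ (by omega)).trans (hd i j)
  have h3 : C ((H'.coeff β).map PowerSeries.constantCoeff) * red G = C a * red H' := by
    have h4 : red (C (H'.coeff β) * G - C (G.coeff β) * H') =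
        C ((H'.coeff β).map PowerSeries.constantCoeff) * red G -
          C ((G.coeff β).map PowerSeries.constantCoeff) * red H' := by
      unfold red
      simp only [Polynomial.map_sub, Polynomial.map_mul, Polynomial.map_C, coe_mapRingHom]
    rw [h2, h1] at h4
    exact (sub_eq_zero.1 h4.symm)
  rw [hred] at h3
  have h5 : (C a : L[X][X]) ≠ 0 := C_ne_zero.2 ha
  apply mul_left_cancel₀ h5
  rw [← h3]
  ring

theorem nonconst {f : PowerSeries L} (hf : f ≠ PowerSeries.C (PowerSeries.constantCoeff f))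
    {P Q : L[X]} (hw : wr P Q ≠ 0) {F : PowerSeries L} (hF : F * el f Q = el f P) :
    F ≠ PowerSeries.C (PowerSeries.constantCoeff F) := by
  intro h
  generalize PowerSeries.constantCoeff F = c at h
  rw [h, ← el_C f, ← map_mul] at hF
  have h1 : P = C c * Q := by
    by_contra h2
    refine el_ne hf (sub_ne_zero.2 h2) ?_
    rw [map_sub, ← hF, sub_self]
  apply hw
  unfold wr
  rw [h1, derivative_C_mul]
  ring

end main

/-- **(N15)** -/
theorem regP : S_regP.{u} := by
  intro l r β H M' L _ _ _ _ P Q P' Q' G Qt A a hco hwr hP' hQ' hG ha hred hA hN y hQy H' hLM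
  obtain ⟨hdeg, hunit, hdv⟩ := hLM
  rcases Nat.eq_zero_or_pos β with hβ0 | hβ
  · subst hβ0
    refine ⟨1, by simp, by simp, fun i j => ?_⟩
    have h1 : G = C (G.coeff 0) := eq_C_of_natDegree_le_zero hG.1
    have h2 : C ((1 : (PowerSeries L)[X][X]).coeff 0) * G - C (G.coeff 0) * 1 = 0 := by
      rw [coeff_one_zero, C_1, one_mul, mul_one, ← h1]
      exact sub_self G
    rw [h2]
    simp
  rcases Nat.eq_zero_or_pos M' with hM0 | hM
  · subst hM0
    refine ⟨X ^ β, by simp, by simp, fun i j => ?_⟩
    simp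
  obtain ⟨f, hfdef⟩ : ∃ f : PowerSeries L, f = PowerSeries.C y + PowerSeries.X := ⟨_, rfl⟩
  have hf0 : PowerSeries.constantCoeff f = y := by simp [hfdef]
  have hf : f ≠ PowerSeries.C (PowerSeries.constantCoeff f) := by
    rw [hf0, hfdef]
    intro h
    have h1 : (PowerSeries.X : PowerSeries L) = 0 := by
      linear_combination h
    exact PowerSeries.X_ne_zero h1
  have hQf : IsUnit (el f Q) := el_unit (by rwa [hf0])
  obtain ⟨Fi, hFi⟩ := hQf.exists_right_inv
  obtain ⟨F, hFdef⟩ : ∃ F, F = el f P * Fi := ⟨_, rfl⟩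
  have hF : F * el f Q = el f P := by
    rw [hFdef, mul_assoc, mul_comm Fi, hFi, mul_one]
  have hF0 : PowerSeries.constantCoeff F = P.eval y / Q.eval y := by
    rw [eq_div_iff hQy]
    have h1 := congrArg PowerSeries.constantCoeff hF
    rwa [map_mul, el_const, el_const, hf0] at h1
  have hFn := nonconst hf hwr hF
  obtain ⟨hGβ, hredH⟩ := red_lm hM ha hred hdv
  -- the monic polynomial `h`
  have hHu : IsUnit (ev f (H'.coeff β)) := by
    rw [PowerSeries.isUnit_iff_constantCoeff, constantCoeff_ev]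
    exact el_unit (by rwa [hf0])
  obtain ⟨hi, hhi⟩ := hHu.exists_right_inv
  obtain ⟨h, hh⟩ : ∃ h : (PowerSeries (PowerSeries L))[X], h = C hi * H'.map (ev f) := ⟨_, rfl⟩
  have hHh : H'.map (ev f) = C (ev f (H'.coeff β)) * h := by
    rw [hh, ← mul_assoc, ← C_mul, hhi, C_1, one_mul]
  have hhd : h.natDegree ≤ β := by
    rw [hh]
    exact (natDegree_C_mul_le _ _).trans (natDegree_map_le.trans hdeg)
  have hhc : h.coeff β = 1 := by
    rw [hh, coeff_C_mul, coeff_map, mul_comm, hhi]
  have hm : h.Monic := monic_of_natDegree_le_of_coeff_eq_one β hhd hhc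
  have hhn : h.natDegree = β := le_antisymm hhd (le_natDegree_of_ne_zero (by rw [hhc]; exact one_ne_zero))
  have hhr : h.map PowerSeries.constantCoeff = (X - C (f ^ l ^ r)) ^ β := by
    have h1 : (H'.map (ev f)).map PowerSeries.constantCoeff = (red H').map (el f) := by
      unfold red
      rw [Polynomial.map_map, Polynomial.map_map]
      congr 1
      refine RingHom.ext fun x => ?_
      simp only [RingHom.comp_apply, constantCoeff_ev, coe_mapRingHom]
    rw [hh, Polynomial.map_mul, h1, hredH, Polynomial.map_mul, Polynomial.map_C, Polynomial.map_C,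
      ← mul_assoc, ← C_mul, ← constantCoeff_ev, ← map_mul, mul_comm hi, hhi, map_one, C_1, one_mul,
      Polynomial.map_pow, Polynomial.map_sub, Polynomial.map_X, Polynomial.map_C, map_pow, el_X]
  -- `Q'` is a unit modulo `h`
  have hcomm : (PowerSeries.constantCoeff (R := PowerSeries L)).comp kap =
      (PowerSeries.C (R := L)).comp PowerSeries.constantCoeff :=
    RingHom.ext fun x => by
      simp only [RingHom.comp_apply, constantCoeff_kap]
  have hPb : (P'.map kap).map PowerSeries.constantCoeff =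
      P.map ((PowerSeries.C (R := L)).comp (iterateFrobenius L l r)) := by
    rw [Polynomial.map_map, hcomm, ← Polynomial.map_map, hP', Polynomial.map_map]
  have hQb : (Q'.map kap).map PowerSeries.constantCoeff =
      Q.map ((PowerSeries.C (R := L)).comp (iterateFrobenius L l r)) := by
    rw [Polynomial.map_map, hcomm, ← Polynomial.map_map, hQ', Polynomial.map_map]
  have hcop : IsCoprime h (Q'.map kap) := by
    rw [← isUnit_resultant_iff_isCoprime hm, PowerSeries.isUnit_iff_constantCoeff]
    rw [← resultant_map_map, hhr, hhn, hQb, resultant_X_sub_C_pow_left]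
    · rw [el_frob]
      exact (hQf.pow _).pow _
    · rw [← hQb]
      exact natDegree_map_le
  obtain ⟨s, t, hst⟩ := hcop
  obtain ⟨U, hUdef⟩ : ∃ U : (PowerSeries (PowerSeries L))[X], U = P'.map kap * t := ⟨_, rfl⟩
  have hfree := hm.free_adjoinRoot
  have hfin := hm.finite_adjoinRoot
  obtain ⟨u, hu⟩ : ∃ u : AdjoinRoot h, u = AdjoinRoot.mk h U := ⟨_, rfl⟩
  have hq : AdjoinRoot.mk h t * AdjoinRoot.mk h (Q'.map kap) = 1 := by
    have h1 := congrArg (AdjoinRoot.mk h) hst
    rwa [map_add, map_mul, map_mul, AdjoinRoot.mk_self, mul_zero, zero_add, map_one] at h1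
  have huq : u * AdjoinRoot.mk h (Q'.map kap) = AdjoinRoot.mk h (P'.map kap) := by
    rw [hu, hUdef, map_mul, mul_assoc, hq, mul_one]
  have hdU : 2 ≤ β → (derivative (U.map PowerSeries.constantCoeff)).eval (f ^ l ^ r) ≠ 0 := by
    intro hβ2
    rw [hUdef, Polynomial.map_mul, hPb]
    have h1 := congrArg (Polynomial.map PowerSeries.constantCoeff) hst
    rw [Polynomial.map_add, Polynomial.map_mul, Polynomial.map_mul, hhr, hQb, Polynomial.map_one] at h1
    refine dU hβ2 h1 ?_
    rw [← wr_mapr', el_frob]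
    exact pow_ne_zero _ (el_ne hf hwr)
  -- the homomorphism to the quotient
  obtain ⟨π, hπ⟩ : ∃ π : (PowerSeries L)[X][X] →+* AdjoinRoot h,
      π = (AdjoinRoot.mk h).comp (mapRingHom (ev f)) := ⟨_, rfl⟩
  have hπC : ∀ g : (PowerSeries L)[X], π (C g) = algebraMap _ (AdjoinRoot h) (ev f g) := by
    intro g
    rw [hπ, RingHom.comp_apply, coe_mapRingHom, Polynomial.map_C, AdjoinRoot.mk_C,
      AdjoinRoot.algebraMap_eq]
  have hπm : ∀ g : (PowerSeries L)[X], π (g.map C) = AdjoinRoot.mk h (g.map kap) := by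
    intro g
    rw [hπ, RingHom.comp_apply, coe_mapRingHom, Polynomial.map_map]
    congr 2
    exact RingHom.ext fun x => by rw [RingHom.comp_apply, ev_C]
  have hπδ : ∀ F' : (PowerSeries L)[X][X], Dv M' F' →
      ∃ w : AdjoinRoot h, π F' = (PowerSeries.X : PowerSeries (PowerSeries L)) ^ M' • w := by
    intro F' hF'
    obtain ⟨T, rfl⟩ := dv_iff.1 hF'
    refine ⟨π T, ?_⟩
    rw [map_mul, hπC, ev_C, map_pow, kap_X, Algebra.smul_def]
  have hπH : π H' = 0 := by
    rw [hπ, RingHom.comp_apply, coe_mapRingHom, hHh, map_mul, AdjoinRoot.mk_self, mul_zero]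
  have hsub : ∀ a b : (PowerSeries L)[X][X], π (a - b) = π a - π b := fun a b => map_sub π a b
  obtain ⟨w1, hw1⟩ := hπδ _ hdv
  rw [hsub, map_mul, map_mul, hπH, mul_zero, sub_zero, hπC, ← Algebra.smul_def] at hw1
  have hπG : π G = (PowerSeries.X : PowerSeries (PowerSeries L)) ^ M' • (hi • w1) := by
    have h1 := congrArg (fun z => hi • z) hw1
    simp only [smul_smul] at h1
    rw [mul_comm hi, hhi, one_smul] at h1
    rw [h1, smul_smul, mul_comm]
  obtain ⟨w2, hw2⟩ := hπδ _ hN
  rw [hsub, map_mul, map_mul, hπC, hπG] at hw2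
  have hnv : π (nv β H P Q P' Q' G) =
      (algebraMap _ (AdjoinRoot h) (PowerSeries.C (el f Q) ^ H) * AdjoinRoot.mk h (Q'.map kap) ^ β) *
        aeval u (G.map (ev F)) := by
    have h1 : aeval u (G.map (ev F)) = ∑ j ∈ range (β + 1), ev F (G.coeff j) • u ^ j := by
      rw [aeval_eq_sum_range' (n := β + 1) (Nat.lt_succ_of_le (natDegree_map_le.trans hG.1))]
      simp only [coeff_map]
    rw [h1, Finset.mul_sum]
    unfold nv
    rw [map_sum]
    refine Finset.sum_congr rfl fun j hj => ?_
    have hj' : j ≤ β := Nat.lt_succ_iff.1 (mem_range.1 hj)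
    rw [map_mul, map_mul, map_pow, map_pow, hπC, hπm, hπm, ev_hcr hF (hG.2 j), ← huq, map_mul,
      Algebra.smul_def]
    have h3 : AdjoinRoot.mk h (Q'.map kap) ^ β =
        AdjoinRoot.mk h (Q'.map kap) ^ j * AdjoinRoot.mk h (Q'.map kap) ^ (β - j) := by
      rw [← pow_add, Nat.add_sub_cancel' hj']
    rw [h3, mul_pow]
    ring
  have hunitE : ∃ e' : AdjoinRoot h, e' * (algebraMap _ (AdjoinRoot h) (PowerSeries.C (el f Q) ^ H) *
      AdjoinRoot.mk h (Q'.map kap) ^ β) = 1 := by
    refine ⟨algebraMap _ (AdjoinRoot h) (PowerSeries.C Fi ^ H) * AdjoinRoot.mk h t ^ β, ?_⟩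
    have h1 : algebraMap _ (AdjoinRoot h) (PowerSeries.C Fi ^ H) *
        algebraMap _ (AdjoinRoot h) (PowerSeries.C (el f Q) ^ H) = 1 := by
      rw [← map_mul, ← mul_pow, ← map_mul, mul_comm Fi, hFi, map_one, one_pow, map_one]
    have h2 : AdjoinRoot.mk h t ^ β * AdjoinRoot.mk h (Q'.map kap) ^ β = 1 := by
      rw [← mul_pow, hq, one_pow]
    calc _ = (algebraMap _ (AdjoinRoot h) (PowerSeries.C Fi ^ H) *
        algebraMap _ (AdjoinRoot h) (PowerSeries.C (el f Q) ^ H)) *
        (AdjoinRoot.mk h t ^ β * AdjoinRoot.mk h (Q'.map kap) ^ β) := by ring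
      _ = 1 := by rw [h1, h2, one_mul]
  obtain ⟨e', he'⟩ := hunitE
  have hAu : ∃ w4 : AdjoinRoot h, ev f A • aeval u (G.map (ev F)) =
      (PowerSeries.X : PowerSeries (PowerSeries L)) ^ M' • w4 := by
    refine ⟨e' * (w2 + π Qt * (hi • w1)), ?_⟩
    have h1 : algebraMap _ (AdjoinRoot h) (ev f A) * π (nv β H P Q P' Q' G) =
        (PowerSeries.X : PowerSeries (PowerSeries L)) ^ M' • (w2 + π Qt * (hi • w1)) := by
      rw [smul_add, ← hw2, mul_smul_comm]
      ring
    rw [hnv] at h1
    have h2 := congrArg (fun z => e' * z) h1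
    simp only [mul_smul_comm] at h2
    rw [mul_smul_comm, ← h2, Algebra.smul_def]
    linear_combination (-(algebraMap _ (AdjoinRoot h) (ev f A) * aeval u (G.map (ev F)))) * he'
  obtain ⟨w4, hw4⟩ := hAu
  have hAn : ¬ (PowerSeries.X : PowerSeries (PowerSeries L)) ∣ ev f A := by
    rw [PowerSeries.X_dvd_iff, constantCoeff_ev]
    exact el_ne hf hA
  obtain ⟨w5, hw5⟩ := dvd_free PowerSeries.X_prime hAn M' hw4
  -- the characteristic polynomial
  obtain ⟨χ, hχ⟩ : ∃ χ : (PowerSeries (PowerSeries L))[X],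
      χ = (Algebra.lmul (PowerSeries (PowerSeries L)) (AdjoinRoot h) u).charpoly := ⟨_, rfl⟩
  have hχm : χ.Monic := by rw [hχ]; exact LinearMap.charpoly_monic _
  have hχu : aeval u χ = 0 := by rw [hχ]; exact Algebra.aeval_self_charpoly_lmul u
  have hχd : χ.natDegree = β := by
    rw [hχ, LinearMap.charpoly_natDegree, (AdjoinRoot.powerBasis' hm).finrank,
      AdjoinRoot.powerBasis'_dim, hhn]
  have hχc : χ.coeff β = 1 := by
    have := hχm.coeff_natDegree
    rwa [hχd] at this
  have hdvd : C ((PowerSeries.X : PowerSeries (PowerSeries L)) ^ M') ∣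
      G.map (ev F) - C (ev F (G.coeff β)) * χ := by
    refine indep hm hhr hdU M' _ ?_ ⟨w5, ?_⟩
    · rw [degree_lt_iff_coeff_zero]
      intro k hk
      rw [coeff_sub, coeff_map, coeff_C_mul]
      rcases hk.eq_or_lt with rfl | hk
      · rw [hχc, mul_one, sub_self]
      · rw [coeff_eq_zero_of_natDegree_lt (hG.1.trans_lt hk), map_zero,
          coeff_eq_zero_of_natDegree_lt (hχd.trans_lt hk), mul_zero, sub_zero]
    · rw [← hu, map_sub, map_mul, hχu, mul_zero, sub_zero, hw5]
  have hfin1 : ∀ j, ∃ (b : L[X]) (c : (PowerSeries L)[X]), b.eval (P.eval y / Q.eval y) ≠ 0 ∧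
      C (PowerSeries.X ^ M') ∣ b.map PowerSeries.C * G.coeff j - G.coeff β * c := by
    intro j
    rw [← hF0]
    refine descend hFn (by rw [hGβ]; exact ha) M' (G.coeff j) ?_
    rw [C_dvd_iff_dvd_coeff] at hdvd
    obtain ⟨w, hw⟩ := hdvd j
    rw [coeff_sub, coeff_map, coeff_C_mul] at hw
    exact ⟨χ.coeff j, w, by rw [← hw]; ring⟩
  obtain ⟨b, hb, hc⟩ := common (fun j => G.coeff j) hfin1 β
  choose! c hc using hc
  set H2 : (PowerSeries L)[X][X] := ∑ j ∈ range β, C (c j) * X ^ j + C (b.map PowerSeries.C) * X ^ β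
    with hH2
  have hc1 : ∀ j < β, H2.coeff j = c j := by
    intro j hj
    rw [hH2, coeff_add, finsetSum_coeff, Finset.sum_eq_single j]
    · rw [coeff_C_mul_X_pow, coeff_C_mul_X_pow, if_pos rfl, if_neg hj.ne, add_zero]
    · intro i _ hij
      rw [coeff_C_mul_X_pow, if_neg hij.symm]
    · intro h
      exact absurd (mem_range.2 hj) h
  have hc2 : H2.coeff β = b.map PowerSeries.C := by
    rw [hH2, coeff_add, finsetSum_coeff, Finset.sum_eq_zero]
    · rw [coeff_C_mul_X_pow, if_pos rfl, zero_add]
    · intro i hi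
      rw [coeff_C_mul_X_pow, if_neg (mem_range.1 hi).ne']
  have hc3 : H2.natDegree ≤ β := by
    rw [hH2]
    refine (natDegree_add_le _ _).trans (max_le ?_ (natDegree_C_mul_X_pow_le _ _))
    refine natDegree_sum_le_of_forall_le _ _ fun i hi => ?_
    exact (natDegree_C_mul_X_pow_le _ _).trans (mem_range.1 hi).le
  refine ⟨H2, hc3, ?_, ?_⟩
  · rw [hc2, map_C_const]
    exact hb
  · rw [dv_iff, C_dvd_iff_dvd_coeff]
    intro j
    rw [coeff_sub, coeff_C_mul, coeff_C_mul, hc2]
    rcases lt_trichotomy j β with hj | rfl | hj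
    · rw [hc1 j hj]
      exact hc j hj
    · rw [hc2]
      have e : b.map PowerSeries.C * G.coeff j - G.coeff j * b.map PowerSeries.C = 0 := by ring
      rw [e]
      exact dvd_zero _
    · rw [coeff_eq_zero_of_natDegree_lt (hG.1.trans_lt hj),
        coeff_eq_zero_of_natDegree_lt (hc3.trans_lt hj), mul_zero, mul_zero, sub_zero]
      exact dvd_zero _

end Pool.Agent.Q92.SP.Reg
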